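import Mathlib
import Pool.Agent.Run7.h407.D.Choice

/-!
Universal chains: the tail of the chain of fields does not depend on the first field.
-/

namespace Pool.Agent.Run7.h407.G.X

open Set Filter Topology MeasureTheory
open scoped ContDiff

/-- The exponent of the scales. -/
noncomputable def kq (q : ℝ) : ℝ := 1 / (q - 1)

theorem kq_pos {q : ℝ} (hq : 1 < q) : 0 < kq q := by
  unfold kq
  have : 0 < q - 1 := by linarith
  positivity

theorem kq_mul {q : ℝ} (hq : 1 < q) : kq q + 1 = q * kq q := by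
  unfold kq
  have : q - 1 ≠ 0 := by linarith
  field_simp
  ring

theorem rh_rh {X q : ℝ} (hX : 0 < X) (k n : ℕ) : rh (rh X q k) q n = rh X q (n + k) := by
  unfold rh
  rw [← Real.rpow_mul hX.le]
  congr 1
  ring

variable {α q X : ℝ}

/-- The data of the scales which begin at the index `k`. -/
theorem preU (h : Pre α q (X ^ kq q) X) (k : ℕ) : Pre α q (rh X q k ^ kq q) (rh X q k) :=
  ⟨h.hα, h.hγ, Real.one_le_rpow (by linarith [h.rh_le k, h.hR]) (kq_pos h.hγ).le,
    h.hR.trans (h.rh_le k), fun x hx => h.cnd x ((h.rh_le k).trans hx)⟩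

theorem σU (h : Pre α q (X ^ kq q) X) (k : ℕ) : h.sc.σ k = rh X q k ^ kq q := by
  induction k with
  | zero =>
    rw [h.sc.σ_zero, rh_zero]
    rfl
  | succ k ih =>
    have hr := h.rh_pos k
    have hX : 0 < X := by linarith [h.hR]
    rw [h.sc.σ_succ, ih, rh_succ hX, h.ρ_eq, ← Real.rpow_mul hr.le, ← kq_mul h.hγ,
      Real.rpow_add hr, Real.rpow_one]

section shift

variable (h : Pre α q (X ^ kq q) X) (k : ℕ)

theorem ρU (n : ℕ) : (preU h k).sc.ρ n = h.sc.ρ (n + k) :=
  rh_rh (by linarith [h.hR]) k n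

theorem σU' (n : ℕ) : (preU h k).sc.σ n = h.sc.σ (n + k) := by
  rw [σU (preU h k) n, σU h, rh_rh (by linarith [h.hR])]

theorem εU (n : ℕ) : (preU h k).sc.ε n = h.sc.ε (n + k) := by
  show Real.exp (-(3 * rh (rh X q k) q n ^ α)) / rh (rh X q k) q n ^ 5
    = Real.exp (-(3 * rh X q (n + k) ^ α)) / rh X q (n + k) ^ 5
  rw [rh_rh (by linarith [h.hR])]

theorem dlU (n : ℕ) : (preU h k).sc.dl n = h.sc.dl (n + k) := by
  unfold Sc.dl
  rw [εU, ρU]

theorem blkU (n : ℕ) : (preU h k).sc.blk (n + 1) = h.sc.blk (n + 1 + k) := by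
  unfold Sc.blk
  rw [ρU, dlU]
  have e : (preU h k).sc.rr (n + 1) = h.sc.rr (n + 1 + k) := by
    rw [show n + 1 + k = (n + k) + 1 by omega]
    show (preU h k).sc.ρ n = h.sc.ρ (n + k)
    exact ρU h k n
  rw [e]

theorem PU (n : ℕ) : (preU h k).sc.P (n + 2) = h.sc.P (n + 2 + k) := by
  rw [show n + 2 + k = (n + 1 + k) + 1 by omega]
  show dil ((preU h k).sc.σ (n + 1)) ((preU h k).sc.blk (n + 1))
    = dil (h.sc.σ (n + 1 + k)) (h.sc.blk (n + 1 + k))
  rw [σU', blkU]

theorem QU (U T : V → V) (n : ℕ) : (preU h k).sc.Q U T (n + 3) = h.sc.P (n + 2 + k) := PU h k n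

end shift

theorem G3_congr {P Q : ℕ → V → V} {m n : ℕ} (h0 : P m = Q n) (h1 : P (m + 1) = Q (n + 1))
    (h2 : P (m + 2) = Q (n + 2)) : G3 P m = G3 Q n := by
  funext i
  fin_cases i
  · show GA P m = GA Q n
    funext x
    unfold GA Cc Bb Nn
    rw [h0, h1, h2]
  · show GB P m = GB Q n
    funext x
    unfold GB Cc Bb Nn
    rw [h1, h2]
  · show GC P m = GC Q n
    funext x
    unfold GC Dd Nn
    rw [h1]

theorem G3U (h : Pre α q (X ^ kq q) X) (k : ℕ) (U T : V → V) (n : ℕ) :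
    G3 ((preU h k).sc.Q U T) (n + 3) = G3 h.sc.P (n + 2 + k) := by
  apply G3_congr
  · exact QU h k U T n
  · have := QU h k U T (n + 1)
    rw [show n + 3 + 1 = n + 1 + 3 by omega, show n + 2 + k + 1 = n + 1 + 2 + k by omega]
    exact this
  · have := QU h k U T (n + 2)
    rw [show n + 3 + 2 = n + 2 + 3 by omega, show n + 2 + k + 2 = n + 2 + 2 + k by omega]
    exact this

end Pool.Agent.Run7.h407.G.X
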