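import Mathlib
import Pool.Agent.Run7.h407.DU.Chc
import Pool.Agent.Run7.h407.DZ.MainZ

/-!
Blow-up with constraint fields of which all but nine are universal.
-/

namespace Pool.Agent.Run7.h407.G.X

open Set Filter Topology MeasureTheory
open scoped ContDiff

section

variable {U T : V → V} {l R1 : ℝ}

/-- The assembly with explicit modes and constraint fields. -/
theorem mainQe {q s0 R L0 DT : ℝ} {h : Pre 4 q s0 R} (k0 : Lnk U T l R1 h L0 DT 0 1)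
    (hlR : l ≤ R1)
    (δ : ℝ) (hδ : 0 ≤ 1 + δ) (h16 : 16 ≤ R ^ (2 * (1 + δ) - q * (4 * q - 2)))
    (hs1 : 17 / 4 / s0 ^ 2 ≤ (2 : ℝ) ^ (-(q ^ 2))) (hR2 : (2 : ℝ) ^ (q ^ 3) ≤ R ^ 2) :
    Fam q 0 U (fun n => h.sc.Q U T (n + 1)) (G3 (h.sc.Q U T)) ∧
      ∀ ν ≥ 0, ∀ a > 0,
        200 * kapG (h.sc.Q U T) 1 * (Dir U U / ip U U * L0) * ν ≤ a →
        200 * kapG (h.sc.Q U T) 1 * (s0 ^ 4 * (DT + Dup) / β0) * ν ≤ a →
        Blo δ 0 R1 (fun n => h.sc.Q U T (n + 1)) (G3 (h.sc.Q U T)) ν (fun x => a • U x)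
          (9 * L0 * kapG (h.sc.Q U T) 1 / a) := by
  have hR := h.R_pos
  have hβ := β0_pos
  have hD := Dup_nonneg h.sc
  have hs0 := h.s0_pos
  have hL := k0.hL
  have hch := Sc.chnQ k0.hd k0.hl
  have hG : ∀ n i, L2F (G3 (h.sc.Q U T) n i) := fun n i => (ChN.G3_CF hch n i).l2
  have hsb : ∀ {n k : ℕ}, n ≤ k → Sb ((2 : ℝ) ^ (-(q ^ n))) (h.sc.P k) :=
    fun hk => h.sb hs1 hR2 hk
  have hUU := k0.hd.n0
  have hDU := Dir_nonneg' U
  have hDT := k0.DT0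
  set κ := kapG (h.sc.Q U T) 1 with hκdef
  have hκ : 0 < κ := k0.kap1_pos
  refine ⟨⟨rfl, fun n => ?_, fun m n hmn => ?_,
    fun n i => ?_, fun n i => ?_,
    ⟨WmaxG (G3 (h.sc.Q U T)) hG, ChN.WmaxG_isSp hch hG, fun w => Iff.rfl⟩⟩, ?_⟩
  · exact ⟨(hch.cf _).sm, (hch.cf _).cs, hch.dv _, hch.N0 n⟩
  · exact hch.orth (by omega)
  · exact ⟨(ChN.G3_CF hch n i).sm, (ChN.G3_CF hch n i).cs, nhds0_of_aw (ChN.G3_aw hch n i)⟩
  · have : Sb ((2 : ℝ) ^ (-(q ^ (n + 2)))) (G3 h.sc.P (n + 2) i) := by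
      fin_cases i
      · exact sb_A (hsb le_rfl) (hsb (by omega)) (hsb (by omega))
      · exact sb_B (hsb (by omega)) (hsb (by omega))
      · exact sb_C (hsb (by omega))
    intro x hx
    rw [sub_zero]
    exact this x hx
  intro ν hν a ha hc1 hc2
  have hL0 : 0 < L0 := by linarith
  have ha0 : 0 < a / κ := by positivity
  have c4 : 200 * (ν * Dir U U / ip U U) * L0 ≤ a / κ := by
    rw [le_div_iff₀ hκ]
    refine le_trans (le_of_eq ?_) hc1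
    ring
  have c5 : 200 * (ν * (h.sc.σ 0 ^ 4 * (DT + Dup)) / β0) ≤ a / κ := by
    rw [le_div_iff₀ hκ]
    refine le_trans (le_of_eq ?_) hc2
    rw [h.sc.σ_zero]
    show 200 * (ν * (s0 ^ 4 * (DT + Dup)) / β0) * κ = _
    ring
  have c6 : ∀ k, 200 * (ν * (h.sc.σ (k + 1) ^ 4 * Dup) / β0)
      ≤ a / κ * ∏ i ∈ Finset.range (k + 1), rh R q i ^ (4 : ℝ) := by
    intro k
    have hpow : ∀ x : ℝ, x ^ (4 : ℝ) = x ^ (4 : ℕ) := fun x => by norm_cast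
    have e1 : ∏ i ∈ Finset.range (k + 1), rh R q i ^ (4 : ℝ)
        = (∏ i ∈ Finset.range (k + 1), rh R q i) ^ 4 := by
      rw [← Finset.prod_pow]
      apply Finset.prod_congr rfl
      intro i _
      exact hpow _
    have e2 : 200 * (ν * (h.sc.σ (k + 1) ^ 4 * Dup) / β0)
        = 200 * (ν * (Dup * s0 ^ 4 / β0)) * (∏ i ∈ Finset.range (k + 1), rh R q i) ^ 4 := by
      rw [h.σ_eq, mul_pow]
      ring
    have e3 : 200 * (ν * (Dup * s0 ^ 4 / β0)) ≤ a / κ := by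
      rw [le_div_iff₀ hκ]
      refine le_trans ?_ hc2
      have e4 : 200 * (ν * (Dup * s0 ^ 4 / β0)) * κ = 200 * κ * (s0 ^ 4 * Dup / β0) * ν := by
        ring
      rw [e4]
      apply mul_le_mul_of_nonneg_right _ hν
      apply mul_le_mul_of_nonneg_left _ (by positivity)
      apply div_le_div_of_nonneg_right _ hβ.le
      apply mul_le_mul_of_nonneg_left _ (by positivity)
      linarith
    rw [e1, e2]
    exact mul_le_mul_of_nonneg_right e3 (by positivity)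
  have k := k0.change hν ha0 c4 c5 c6
  have hg := Sc.goodQ (c := h.sc) (h.sc.wgt h.stp) k.hd k.hl
  obtain ⟨Tb, A, S⟩ := exists_sol k.par k.e0
  have hinit : ∀ x, vel (h.sc.Q U T) (cofG (h.sc.Q U T) A) 0 x = a • U x := by
    intro x
    rw [velG_init S x]
    show (κ * (a / κ)) • U x = a • U x
    congr 1
    field_simp
  have hq4 : 4 ≤ 4 * q := by linarith [h.hγ]
  have hcub := k.cubic hq4 S
  have hsp : ∀ t ∈ Ico 0 Tb, ∀ x : V, R1 < ‖x‖ →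
      vel (h.sc.Q U T) (cofG (h.sc.Q U T) A) t x = 0 := fun t ht x hx =>
    mem_ball (Sc.Q_ball k.hd k.hl hlR) (hg.mem k.pw S ht) hx
  have hsup := sup_of_cubic S.Tpos hsp hcub
  refine ⟨Tb, S.Tpos, ?_, vel (h.sc.Q U T) (cofG (h.sc.Q U T) A), funext hinit,
    fun t ht x hx => hsp t ht x (by rwa [sub_zero] at hx), ?_, hcub, hsup,
    fun W hW => ⟨hg.isProj k.fit k.pw S hW, fun T' w hw' h0 => ?_⟩⟩
  · refine S.Tle.trans ?_
    show 9 * L0 / (a / κ) ≤ 9 * L0 * κ / a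
    apply le_of_eq
    field_simp
  · simp only [sub_zero]
    exact k.vel_bd S hδ h16
  · exact hg.max k.fit k.pw S hν hW hsup hw' fun x => by rw [h0, hinit]

end

/-- The universal fields. -/
structure UF (q : ℝ) (P : ℕ → V → V) (G : ℕ → Fin 3 → V → V) : Prop where
  mode : ∀ m, ContDiff ℝ ∞ (P m) ∧ HasCompactSupport (P m) ∧ (∀ x, dvg (P m) x = 0) ∧
    0 < ip (P m) (P m)
  field : ∀ m i, ContDiff ℝ ∞ (G m i) ∧ HasCompactSupport (G m i) ∧ ∀ᶠ x in 𝓝 0, G m i x = 0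
  ballP : ∀ m x, P m x ≠ 0 → ‖x‖ ≤ (2 : ℝ) ^ (-(q ^ m))
  ballG : ∀ m i x, G m i x ≠ 0 → ‖x‖ ≤ (2 : ℝ) ^ (-(q ^ m))

/-- The modes and constraint fields with `n ≥ 3` are universal. -/
def Tail (P : ℕ → V → V) (G : ℕ → Fin 3 → V → V) (k : ℕ) (z : V) (p : ℕ → V → V)
    (g : ℕ → Fin 3 → V → V) : Prop :=
  ∀ n, p (n + 3) = Tl z (P (n + 3 + k)) ∧ ∀ i, g (n + 3) i = Tl z (G (n + 3 + k) i)

theorem Tl_zero' (f : V → V) : Tl 0 f = f := by
  funext x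
  show f (x - 0) = f x
  rw [sub_zero]

theorem Tl_Tl (z w : V) (f : V → V) : Tl z (Tl w f) = Tl (z + w) f := by
  funext x
  show f (x - z - w) = f (x - (z + w))
  congr 1
  abel

theorem Tail.tl {P : ℕ → V → V} {G : ℕ → Fin 3 → V → V} {k : ℕ} {p : ℕ → V → V}
    {g : ℕ → Fin 3 → V → V} (h : Tail P G k 0 p g) (z : V) :
    Tail P G k z (fun n => Tl z (p n)) (fun n i => Tl z (g n i)) := by
  intro n
  obtain ⟨h1, h2⟩ := h n
  refine ⟨?_, fun i => ?_⟩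
  · show Tl z (p (n + 3)) = _
    rw [h1, Tl_zero']
  · show Tl z (g (n + 3) i) = _
    rw [h2, Tl_zero']

theorem nhds0_of_aw2 {g : V → V} (hg : Aw2 g) : ∀ᶠ x in 𝓝 (0 : V), g x = 0 := by
  obtain ⟨b, hb, hz⟩ := hg
  have h1 : ∀ᶠ x : V in 𝓝 0, x 2 < b :=
    (continuous_apply (2 : Fin 3)).continuousAt.eventually (gt_mem_nhds hb)
  filter_upwards [h1] with y hy
  exact hz y hy

/-- The master data. -/
structure Mst (q X : ℝ) : Prop where
  pre : Pre 4 q (X ^ kq q) X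
  s1 : 17 / 4 / (X ^ kq q) ^ 2 ≤ (2 : ℝ) ^ (-(q ^ 2))
  R2 : (2 : ℝ) ^ (q ^ 3) ≤ X ^ 2

theorem exists_mst {q : ℝ} (hq : 1 < q) (hq1 : q < 5 / 4) : ∃ X : ℝ, Mst q X := by
  obtain ⟨X0, hX0⟩ := (cnd_eventually (α := 4) (γ := q) (by norm_num)
    (by linarith)).exists_forall_of_atTop
  have hκ := kq_pos hq
  have E1 : ∀ᶠ x : ℝ in atTop, 17 / 4 / (2 : ℝ) ^ (-(q ^ 2)) ≤ (x ^ kq q) ^ 2 :=
    ((tendsto_pow_atTop two_ne_zero).comp (tendsto_rpow_atTop hκ)).eventually_ge_atTop _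
  have E2 : ∀ᶠ x : ℝ in atTop, (2 : ℝ) ^ (q ^ 3) ≤ x ^ 2 :=
    (tendsto_pow_atTop two_ne_zero).eventually_ge_atTop _
  obtain ⟨X, ⟨e1, e2⟩, e3⟩ := ((E1.and E2).and (eventually_ge_atTop (max X0 100))).exists
  have h1 : X0 ≤ X := (le_max_left _ _).trans e3
  have h2 : 100 ≤ X := (le_max_right _ _).trans e3
  have h3 : 1 ≤ X ^ kq q := Real.one_le_rpow (by linarith) hκ.le
  refine ⟨X, ⟨by norm_num, hq, h3, h2, fun x hx => hX0 x (h1.trans hx)⟩, ?_, e2⟩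
  have h4 : (0 : ℝ) < 2 ^ (-(q ^ 2)) := by positivity
  rw [div_le_iff₀ h4] at e1
  rw [div_le_iff₀ (by positivity)]
  linarith

section mst

variable {q X : ℝ} (M : Mst q X)

include M

theorem Mst.s1k (k : ℕ) : 17 / 4 / (rh X q k ^ kq q) ^ 2 ≤ (2 : ℝ) ^ (-(q ^ 2)) := by
  refine le_trans ?_ M.s1
  have hX : 0 < X := by linarith [M.pre.hR]
  have h1 : X ^ kq q ≤ rh X q k ^ kq q :=
    Real.rpow_le_rpow hX.le (M.pre.rh_le k) (kq_pos M.pre.hγ).le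
  have h2 : 0 < X ^ kq q := Real.rpow_pos_of_pos hX _
  apply div_le_div_of_nonneg_left (by norm_num) (by positivity)
  exact pow_le_pow_left₀ h2.le h1 2

theorem Mst.R2k (k : ℕ) : (2 : ℝ) ^ (q ^ 3) ≤ rh X q k ^ 2 := by
  refine M.R2.trans ?_
  have hX : 0 < X := by linarith [M.pre.hR]
  exact pow_le_pow_left₀ hX.le (M.pre.rh_le k) 2

theorem Mst.sbP {n k : ℕ} (hk : n ≤ k) : Sb ((2 : ℝ) ^ (-(q ^ n))) (M.pre.sc.P k) :=
  M.pre.sb M.s1 M.R2 hk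

theorem Mst.uf : UF q (fun m => M.pre.sc.P (m + 1)) (G3 M.pre.sc.P) := by
  have hch := M.pre.sc.chn
  have hγ := M.pre.hγ
  refine ⟨fun m => ⟨(hch.cf _).sm, (hch.cf _).cs, hch.dv _, hch.N0 m⟩, fun m i => ?_,
    fun m x hx => ?_, fun m i x hx => ?_⟩
  · exact ⟨(G3_CF hch m i).sm, (G3_CF hch m i).cs, nhds0_of_aw2 (G3_aw hch m i)⟩
  · exact M.sbP (by omega : m ≤ m + 1) x hx
  · have : Sb ((2 : ℝ) ^ (-(q ^ m))) (G3 M.pre.sc.P m i) := by
      fin_cases i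
      · exact sb_A (M.sbP le_rfl) (M.sbP (by omega)) (M.sbP (by omega))
      · exact sb_B (M.sbP (by omega)) (M.sbP (by omega))
      · exact sb_C (M.sbP (by omega))
    exact this x hx

end mst

end Pool.Agent.Run7.h407.G.X
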