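import Mathlib
import Pool.Agent.Run7.h407.DU.Blow

/-!
The main theorems with universal constraint fields, Navier-Stokes equations.
-/

namespace Pool.Agent.Run7.h407.G.X

open Set Filter Topology MeasureTheory
open scoped ContDiff

/-- The factor of the coefficients. -/
noncomputable def cK (V0 T0 : V → V) : ℝ := 2 * (ip T0 T0 + 1 + Nup) / -tri T0 V0 T0

/-- The threshold of the amplitudes. -/
noncomputable def cD (V0 T0 : V → V) (R w : ℝ) : ℝ :=
  200 * cK V0 T0 * (Dir V0 V0 / ip V0 V0) * R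
    + 200 * cK V0 T0 * ((Dir T0 T0 + 1 + Dup) / β0) * w ^ 4

section

variable {V0 T0 φ : V → V} {l R1 : ℝ}

theorem Src.cK_pos (S : Src V0 T0 φ l R1) (c : Sc) : 0 < cK V0 T0 := by
  have hb0 := S.b0
  have hβ := β0_pos
  have hNup : 0 < Nup := hβ.trans_le ((c.nn_low 0).trans (c.nn_up 0))
  have := ip_nonneg T0
  unfold cK
  positivity

theorem Src.blowU (S : Src V0 T0 φ l R1) {q X : ℝ} (M : Mst q X) {k : ℕ} {w δ : ℝ}
    (hR : ROu V0 T0 φ l (rh X q (k + 1)) w) (hδ : 0 ≤ 1 + δ)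
    (h16 : 16 ≤ rh X q (k + 1) ^ (2 * (1 + δ) - q * (4 * q - 2)))
    {U : V → V} {lU s b : ℝ} (P : Prt U V0 T0 φ l R1 lU s b)
    (hws : rh X q (k + 1) ^ kq q = w * s) :
    ∃ (p : ℕ → V → V) (g : ℕ → Fin 3 → V → V) (ρ : ℝ), Fam q 0 (P0 U V0 b s) p g ∧
      Tail (fun m => M.pre.sc.P (m + 1)) (G3 M.pre.sc.P) k 0 p g ∧
      ∀ ν ≥ 0, ∀ a > 0, cD V0 T0 (rh X q (k + 1)) w * ν ≤ a * b * s →
        Blo δ 0 ρ p g ν (fun x => a • P0 U V0 b s x)
          (9 * rh X q (k + 1) * cK V0 T0 / (a * b * s ^ 5)) := by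
  set R := rh X q (k + 1) with hRd
  have hβ := β0_pos
  have hb0 := S.b0
  have hN := S.n0
  have hDV := Dir_nonneg' V0
  have hRb := hR.big
  have hw := hR.w1
  set hp := preU M.pre (k + 1) with hpd
  have hDup := Dup_nonneg hp.sc
  have hKp : 0 < cK V0 T0 := S.cK_pos hp.sc
  have hM2 : 0 < Dir T0 T0 + 1 + Dup := by
    have := Dir_nonneg' T0
    linarith
  set K := cK V0 T0 with hK
  obtain ⟨RU, hRU⟩ : ∃ R, ∀ x, U x ≠ 0 → ‖x‖ ≤ R := by
    obtain ⟨R, hR⟩ := P.cu.cs.isCompact.isBounded.exists_norm_le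
    exact ⟨R, fun x hx => hR x (subset_tsupport U hx)⟩
  obtain ⟨hL, hκ, hquo⟩ := P.lnkU hR hp hws hRU
  have hs := P.s0
  have hb := P.b0
  have hs1 := P.s1
  have hs2 : 1 ≤ s ^ 2 := one_le_pow₀ hs1
  have hlR : l / s ^ 2 ≤ max R1 RU := by
    refine le_trans ?_ (le_max_left _ _)
    exact (div_le_self S.l0.le hs2).trans S.lR
  obtain ⟨hF, H⟩ := mainQe hL hlR δ hδ h16 (M.s1k (k + 1)) (M.R2k (k + 1))
  refine ⟨_, _, max R1 RU, hF, fun n => ⟨?_, fun i => ?_⟩, fun ν hν a ha haν => ?_⟩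
  · rw [Tl_zero']
    have := QU M.pre (k + 1) (P0 U V0 b s) (dil s (Tc T0 φ (Real.exp (-(3 * R))))) (n + 1)
    rw [show n + 1 + 3 = n + 3 + 1 by omega, show n + 1 + 2 + (k + 1) = n + 3 + k + 1 by omega]
      at this
    exact this
  · rw [Tl_zero']
    have := G3U M.pre (k + 1) (P0 U V0 b s) (dil s (Tc T0 φ (Real.exp (-(3 * R))))) n
    rw [show n + 2 + (k + 1) = n + 3 + k by omega] at this
    exact congrFun this i
  have hκ0 := hL.kap1_pos
  set κ := kapG (hp.sc.Q (P0 U V0 b s) (dil s (Tc T0 φ (Real.exp (-(3 * R)))))) 1 with hκd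
  have hκ' : κ ≤ K / (b * s ^ 5) := hκ
  have hκs : κ * (b * s ^ 5) ≤ K := by
    rw [le_div_iff₀ (by positivity)] at hκ'
    exact hκ'
  have hw0 : 0 < w := by linarith
  have hR0 : 0 < R := by linarith
  have q1 : 0 ≤ 200 * K * (Dir V0 V0 / ip V0 V0) * R * ν := by positivity
  have q2 : 0 ≤ 200 * K * ((Dir T0 T0 + 1 + Dup) / β0) * w ^ 4 * ν := by positivity
  have hsum : 200 * K * (Dir V0 V0 / ip V0 V0) * R * ν
      + 200 * K * ((Dir T0 T0 + 1 + Dup) / β0) * w ^ 4 * ν ≤ a * b * s := by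
    refine le_trans (le_of_eq ?_) haν
    unfold cD
    ring
  have hbs : 0 < b * s := by positivity
  refine (H ν hν a ha ?_ ?_).mono ?_
  · have h1 : 200 * κ * (Dir (P0 U V0 b s) (P0 U V0 b s) / ip (P0 U V0 b s) (P0 U V0 b s) * R) * ν
        ≤ 200 * (K / (b * s ^ 5)) * (s ^ 4 * (Dir V0 V0 / ip V0 V0) * R) * ν := by
      apply mul_le_mul_of_nonneg_right _ hν
      apply mul_le_mul
      · exact mul_le_mul_of_nonneg_left hκ' (by norm_num)
      · exact mul_le_mul_of_nonneg_right hquo (by linarith)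
      · have h2 : 0 ≤ Dir (P0 U V0 b s) (P0 U V0 b s) := Dir_nonneg' _
        have h3 : 0 ≤ ip (P0 U V0 b s) (P0 U V0 b s) := ip_nonneg _
        positivity
      · positivity
    refine h1.trans ?_
    have h4 : 200 * (K / (b * s ^ 5)) * (s ^ 4 * (Dir V0 V0 / ip V0 V0) * R) * ν
        = 200 * K * (Dir V0 V0 / ip V0 V0) * R * ν / (b * s) := by
      field_simp
    rw [h4, div_le_iff₀ hbs]
    linarith
  · have h1 : 200 * κ * ((R ^ kq q) ^ 4 * (Dir (Tc T0 φ (Real.exp (-(3 * R))))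
        (Tc T0 φ (Real.exp (-(3 * R)))) + Dup) / β0) * ν
        ≤ 200 * (K / (b * s ^ 5)) * ((w * s) ^ 4 * (Dir T0 T0 + 1 + Dup) / β0) * ν := by
      rw [hws]
      apply mul_le_mul_of_nonneg_right _ hν
      have h2 := Dir_nonneg' (Tc T0 φ (Real.exp (-(3 * R))))
      apply mul_le_mul
      · exact mul_le_mul_of_nonneg_left hκ' (by norm_num)
      · apply div_le_div_of_nonneg_right _ hβ.le
        apply mul_le_mul_of_nonneg_left _ (by positivity)
        linarith [hR.d1]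
      · positivity
      · positivity
    refine h1.trans ?_
    have h4 : 200 * (K / (b * s ^ 5)) * ((w * s) ^ 4 * (Dir T0 T0 + 1 + Dup) / β0) * ν
        = 200 * K * ((Dir T0 T0 + 1 + Dup) / β0) * w ^ 4 * ν / (b * s) := by
      field_simp
    rw [h4, div_le_iff₀ hbs]
    linarith
  · rw [div_le_div_iff₀ ha (by positivity)]
    have := mul_le_mul_of_nonneg_left hκs (by positivity : 0 ≤ 9 * R * a)
    calc 9 * R * κ * (a * b * s ^ 5) = 9 * R * a * (κ * (b * s ^ 5)) := by ring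
      _ ≤ 9 * R * a * K := this
      _ = _ := by ring

end

section

variable {U : V → V} {q X δ : ℝ}

theorem Mst.tend (M : Mst q X) : Tendsto (fun k => rh X q (k + 1)) atTop atTop :=
  (tendsto_add_atTop_iff_nat 1).2 (rh_tend (by linarith [M.pre.hR]) M.pre.hγ)

/-- Every datum which is not a steady Euler flow. -/
theorem mainAU (M : Mst q X) (hq1 : q < 5 / 4) (hδ : 0 ≤ 1 + δ)
    (hη : 0 < 2 * (1 + δ) - q * (4 * q - 2))
    (hU : CF U) (hd : ∀ x, dvg U x = 0) (hns : ∃ i x, om i (adv U U) x ≠ 0) {z : V}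
    (hz : ∀ᶠ x in 𝓝 z, U x = 0) :
    ∃ k₀ : ℕ, ∀ k ≥ k₀, ∃ (p : ℕ → V → V) (g : ℕ → Fin 3 → V → V) (ρ : ℝ), Fam q z U p g ∧
      Tail (fun m => M.pre.sc.P (m + 1)) (G3 M.pre.sc.P) k z p g ∧ ∃ A₀ > 0, ∀ ν ≥ 0,
        ∀ a > 0, A₀ * ν ≤ a → Blo δ z ρ p g ν (fun x => a • U x) (A₀ / a) := by
  have hq := M.pre.hγ
  have hκ : 4 / 5 < kq q := by
    unfold kq
    rw [lt_div_iff₀ (by linarith)]
    linarith
  have hU' : CF (Tl (-z) U) := ⟨sm_Tl _ hU.sm, cs_Tl _ hU.cs⟩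
  have hd' : ∀ x, dvg (Tl (-z) U) x = 0 := fun x => by rw [dvg_Tl, hd]
  have ha' := Aw0_Tl hz
  have hns' : ∃ i x, om i (adv (Tl (-z) U) (Tl (-z) U)) x ≠ 0 := by
    obtain ⟨i, x, hx⟩ := hns
    refine ⟨i, x - z, ?_⟩
    rw [adv_Tl, om_Tl]
    have : x - z - -z = x := by abel
    rw [this]
    exact hx
  obtain ⟨T0, φ, l, R1, S⟩ := exists_src hU' hd' ha' hns'
  have E1 : ∀ᶠ R : ℝ in atTop, 16 ≤ R ^ (2 * (1 + δ) - q * (4 * q - 2)) :=
    (tendsto_rpow_atTop hη).eventually_ge_atTop _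
  obtain ⟨k₀, hk₀⟩ := (M.tend.eventually ((S.evU hκ).and E1)).exists_forall_of_atTop
  refine ⟨k₀, fun k hk => ?_⟩
  obtain ⟨hR, h16⟩ := hk₀ k hk
  have hR1 : 0 < R1 := S.l0.trans_le S.lR
  have e0 : P0 (fun _ => 0) (Tl (-z) U) 1 1 = Tl (-z) U := by
    funext x
    show (0 : V) + (1 : ℝ) • dil 1 (Tl (-z) U) x = _
    rw [dil_one, one_smul, zero_add]
  have hP : Prt (fun _ => 0) (Tl (-z) U) T0 φ l R1 (R1 + 1) 1 1 :=
    { S := S
      cu := ⟨contDiff_const, HasCompactSupport.zero⟩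
      du := fun x => Finset.sum_eq_zero fun i _ => pd_const _ _ _
      zu := fun x _ => rfl
      s1 := le_rfl
      sR := by linarith
      b0 := one_pos
      hD := by
        have h1 : Dir (fun _ : V => (0 : V)) (fun _ => 0) = 0 := by
          apply Dir_zero_of
          intro x
          exact Or.inl (Eventually.of_forall fun _ => rfl)
        have h2 : ip (fun _ : V => (0 : V)) (fun _ => 0) = 0 := by
          apply ip_zero_of'
          intro x
          exact Or.inl rfl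
        rw [h1, h2]
        simp }
  obtain ⟨p, g, ρ, hF, hT, hB⟩ := S.blowU M hR hδ h16 hP (mul_one _).symm
  rw [e0] at hF hB
  have e1 := Tl_inv z U
  have hF' := hF.tl (z := z)
  rw [e1] at hF'
  have hβ := β0_pos
  have hK : 0 < cK (Tl (-z) U) T0 := S.cK_pos M.pre.sc
  have hDup := Dup_nonneg M.pre.sc
  have hD1 : 0 ≤ Dir (Tl (-z) U) (Tl (-z) U) := Dir_nonneg' _
  have hD2 : 0 ≤ Dir T0 T0 := Dir_nonneg' _
  have hN : 0 < ip (Tl (-z) U) (Tl (-z) U) := S.n0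
  have hRb := hR.big
  have hwb := hR.w1
  set R := rh X q (k + 1) with hRd
  set w := R ^ kq q with hwd
  have hR0 : 0 < R := by linarith
  have hD0 : 0 ≤ cD (Tl (-z) U) T0 R w := by
    unfold cD
    positivity
  have hA : 0 < cD (Tl (-z) U) T0 R w + 9 * R * cK (Tl (-z) U) T0 := by positivity
  refine ⟨_, _, ρ, hF', hT.tl z, _, hA, fun ν hν a ha haν => ?_⟩
  have h1 := (hB ν hν a ha (by
    have : 0 ≤ 9 * R * cK (Tl (-z) U) T0 * ν := by positivity
    linarith)).tl (z := z)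
  have e2 : Tl z (fun x => a • Tl (-z) U x) = fun x => a • U x := by
    funext x
    show a • Tl (-z) U (x - z) = a • U x
    have := congrFun e1 x
    rw [← this]
    rfl
  rw [e2] at h1
  refine h1.mono ?_
  rw [mul_one, one_pow, mul_one]
  exact div_le_div_of_nonneg_right (by linarith) ha.le

/-- Small localised perturbations of every datum, at every viscosity. -/
theorem mainB0U (M : Mst q X) (hq1 : q < 5 / 4) (hδ : 0 ≤ 1 + δ)
    (hη : 0 < 2 * (1 + δ) - q * (4 * q - 2))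
    (hU : CF U) (hd : ∀ x, dvg U x = 0) (ha : Aw0 U) {r ε N : ℝ} (hr : 0 < r) (hr3 : r < 3)
    (hqr : q ≤ 1 + (3 - r) / 8)
    (hε : 0 < ε) : ∃ k₀ : ℕ, ∀ k ≥ k₀, ∃ F : V → V, CF F ∧ (∀ x, dvg F x = 0) ∧
      (∀ x, F x ≠ 0 → ‖x‖ ≤ ε) ∧
      ∫ x, ‖F x‖ ^ r ≤ ε ∧ ∃ (p : ℕ → V → V) (g : ℕ → Fin 3 → V → V) (ρ : ℝ),
        Fam q 0 (fun x => U x + F x) p g ∧
        Tail (fun m => M.pre.sc.P (m + 1)) (G3 M.pre.sc.P) k 0 p g ∧ ∀ ν, 0 ≤ ν → ν ≤ N →
          Blo δ 0 ρ p g ν (fun x => U x + F x) ε := by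
  have hq := M.pre.hγ
  obtain ⟨V0, T0, φ, l, R1, S, hDV⟩ := exists_src0
  obtain ⟨lU, hlU, hz⟩ := ha
  have hR1 : 0 < R1 := S.l0.trans_le S.lR
  have hK : 0 < cK V0 T0 := S.cK_pos M.pre.sc
  have hβ0 := β0_pos
  have hDup := Dup_nonneg M.pre.sc
  have hD2 : 0 ≤ Dir T0 T0 := Dir_nonneg' _
  have hN : 0 < ip V0 V0 := S.n0
  -- the exponents
  obtain ⟨κ', hκ'⟩ : ∃ κ' : ℝ, κ' = kq q - 5 / 6 := ⟨_, rfl⟩
  have hκ4 : 4 < kq q := by
    unfold kq
    rw [lt_div_iff₀ (by linarith)]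
    linarith
  have hκ'0 : 0 < κ' := by linarith
  have hκr : 8 ≤ kq q * (3 - r) := by
    unfold kq
    rw [div_mul_eq_mul_div, le_div_iff₀ (by linarith)]
    linarith
  obtain ⟨β, hβ1, hβ2⟩ : ∃ β : ℝ, 10 / 3 < κ' * (1 - β) ∧ r * (3 - β) - 6 < 0 := by
    refine ⟨((3 - 6 / r) + (1 - 10 / (3 * κ'))) / 2, ?_, ?_⟩
    · have h1 : 10 / (3 * κ') < 6 / r - 2 := by
        have h2 : 6 / r - 2 = (6 - 2 * r) / r := by
          field_simp
        rw [h2, div_lt_div_iff₀ (by positivity) hr]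
        nlinarith
      have h3 : κ' * (10 / (3 * κ')) = 10 / 3 := by
        field_simp
      nlinarith
    · have h1 : 10 / (3 * κ') < 6 / r - 2 := by
        have h2 : 6 / r - 2 = (6 - 2 * r) / r := by
          field_simp
        rw [h2, div_lt_div_iff₀ (by positivity) hr]
        nlinarith
      have h3 : r * (6 / r) = 6 := by
        field_simp
      nlinarith
  have ts : Tendsto (fun x : ℝ => x ^ κ') atTop atTop := tendsto_rpow_atTop hκ'0
  have p2 : Tendsto (fun s : ℝ => s ^ 2) atTop atTop := tendsto_pow_atTop two_ne_zero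
  have p4 : Tendsto (fun s : ℝ => s ^ 4) atTop atTop := tendsto_pow_atTop four_ne_zero
  have E1 : ∀ᶠ s : ℝ in atTop, R1 / lU < s ^ 2 := p2.eventually_gt_atTop _
  have E2 : ∀ᶠ s : ℝ in atTop, R1 / ε ≤ s ^ 2 := p2.eventually_ge_atTop _
  have E3 : ∀ᶠ s : ℝ in atTop, Dir U U * ip V0 V0 / (Dir V0 V0 * ip U U) ≤ s ^ 4 :=
    p4.eventually_ge_atTop _
  have E6 : ∀ᶠ s : ℝ in atTop, s ^ (r * (3 - β) - 6) * ∫ x, ‖V0 x‖ ^ r ≤ ε := by
    have h1 : Tendsto (fun s : ℝ => s ^ (-(6 - r * (3 - β))) * ∫ x, ‖V0 x‖ ^ r) atTop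
        (𝓝 (0 * ∫ x, ‖V0 x‖ ^ r)) :=
      (tendsto_rpow_neg_atTop (by linarith)).mul_const _
    rw [zero_mul, neg_sub] at h1
    exact h1.eventually_le_const hε
  have F1 : ∀ᶠ R : ℝ in atTop, (200 * cK V0 T0 * (Dir V0 V0 / ip V0 V0)
      + 200 * cK V0 T0 * ((Dir T0 T0 + 1 + Dup) / β0)) * |N| ≤ R ^ (κ' * (1 - β) - 10 / 3) :=
    (tendsto_rpow_atTop (by linarith)).eventually_ge_atTop _
  have F2 : ∀ᶠ R : ℝ in atTop, 9 * cK V0 T0 / ε ≤ R ^ (κ' * (5 - β) - 1) :=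
    (tendsto_rpow_atTop (by nlinarith)).eventually_ge_atTop _
  have F3 : ∀ᶠ R : ℝ in atTop, 16 ≤ R ^ (2 * (1 + δ) - q * (4 * q - 2)) :=
    (tendsto_rpow_atTop hη).eventually_ge_atTop _
  obtain ⟨k₀, hk₀⟩ := (M.tend.eventually (((((((((S.evU (μ := 5 / 6) (by norm_num)).and
    (ts.eventually E1)).and (ts.eventually E2)).and (ts.eventually E3)).and
    (ts.eventually E6)).and F1).and F2).and F3).and
    (ts.eventually (eventually_ge_atTop 1)))).exists_forall_of_atTop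
  refine ⟨k₀, fun k hk => ?_⟩
  obtain ⟨⟨⟨⟨⟨⟨⟨⟨hR, e1⟩, e2⟩, e3⟩, e6⟩, f1⟩, f2⟩, f3⟩, hs1⟩ := hk₀ k hk
  have hRb := hR.big
  set R := rh X q (k + 1) with hRd
  have hR0 : 0 < R := by linarith
  set s := R ^ κ' with hsd
  have hs : 0 < s := Real.rpow_pos_of_pos hR0 _
  have hb : 0 < s ^ (-β) := Real.rpow_pos_of_pos hs _
  have hws : R ^ kq q = R ^ (5 / 6 : ℝ) * s := by
    rw [hsd, ← Real.rpow_add hR0]
    congr 1
    linarith
  rw [div_lt_iff₀ hlU] at e1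
  rw [div_le_iff₀ hε] at e2 f2
  have hP : Prt U V0 T0 φ l R1 lU s (s ^ (-β)) :=
    { S := S
      cu := hU
      du := hd
      zu := hz
      s1 := hs1
      sR := e1
      b0 := hb
      hD := by
        rcases (ip_nonneg U).lt_or_eq with h | h
        · rw [div_le_iff₀ (by positivity)] at e3
          linarith
        · have h1 : Dir U U = 0 := by
            apply Dir_zero_of
            intro x
            exact Or.inl (Eventually.of_forall fun y => zero_of_ip hU h.symm.le y)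
          rw [h1, ← h]
          simp }
  obtain ⟨p, g, ρ, hF, hT, hB⟩ := S.blowU M hR hδ f3 hP hws
  refine ⟨fun x => s ^ (-β) • dil s V0 x, hP.cV.smul _, fun x => ?_, fun x hx => ?_, ?_, p, g, ρ,
    hF, hT, fun ν hν hνN => ?_⟩
  · rw [dvg_smul _ hP.cV, dvg_dil S.cu.smc, S.du, mul_zero, mul_zero]
  · have h2 : V0 (s ^ 2 • x) ≠ 0 := by
      intro h3
      apply hx
      show s ^ (-β) • (s ^ 3 • V0 (s ^ 2 • x)) = 0
      rw [h3, smul_zero, smul_zero]
    have h4 := (S.su _ h2).2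
    rw [norm_smul, Real.norm_eq_abs, abs_of_pos (by positivity)] at h4
    have h5 : 0 < s ^ 2 := by positivity
    nlinarith
  · rw [int_dil_rpow V0 hs hb]
    have e7 : (s ^ (-β) * s ^ 3) ^ r * (s ^ 6)⁻¹ = s ^ (r * (3 - β) - 6) := by
      have h3 : s ^ (3 : ℕ) = s ^ (3 : ℝ) := by norm_cast
      have h6 : (s ^ (6 : ℕ))⁻¹ = s ^ (-6 : ℝ) := by
        rw [Real.rpow_neg hs.le]
        norm_cast
      rw [h3, h6, ← Real.rpow_add hs, ← Real.rpow_mul hs.le, ← Real.rpow_add hs]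
      congr 1
      ring
    rw [e7]
    exact e6
  · have h1 : s ^ (-β) * s = s ^ (1 - β) := by
      have : s ^ (-β) * s = s ^ (-β) * s ^ (1 : ℝ) := by rw [Real.rpow_one]
      rw [this, ← Real.rpow_add hs]
      congr 1
      ring
    have h2 : s ^ (-β) * s ^ 5 = s ^ (5 - β) := by
      have h5 : s ^ (5 : ℕ) = s ^ (5 : ℝ) := by norm_cast
      rw [h5, ← Real.rpow_add hs]
      congr 1
      ring
    have h11 : cD V0 T0 R (R ^ (5 / 6 : ℝ)) * ν ≤ s ^ (1 - β) := by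
      have g1 : (R ^ (5 / 6 : ℝ)) ^ 4 = R ^ (10 / 3 : ℝ) := by
        rw [← Real.rpow_natCast (R ^ (5 / 6 : ℝ)) 4, ← Real.rpow_mul hR0.le]
        norm_num
      have g2 : R ≤ R ^ (10 / 3 : ℝ) := by
        calc R = R ^ (1 : ℝ) := (Real.rpow_one R).symm
          _ ≤ _ := Real.rpow_le_rpow_of_exponent_le (by linarith) (by norm_num)
      have g3 : s ^ (1 - β) = R ^ (κ' * (1 - β) - 10 / 3) * R ^ (10 / 3 : ℝ) := by
        rw [hsd, ← Real.rpow_mul hR0.le, ← Real.rpow_add hR0]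
        congr 1
        ring
      have g4 : 0 < R ^ (10 / 3 : ℝ) := Real.rpow_pos_of_pos hR0 _
      have g5 : 0 ≤ 200 * cK V0 T0 * (Dir V0 V0 / ip V0 V0) := by positivity
      have g6 : 0 ≤ 200 * cK V0 T0 * ((Dir T0 T0 + 1 + Dup) / β0) := by positivity
      have g7 : cD V0 T0 R (R ^ (5 / 6 : ℝ)) ≤ (200 * cK V0 T0 * (Dir V0 V0 / ip V0 V0)
          + 200 * cK V0 T0 * ((Dir T0 T0 + 1 + Dup) / β0)) * R ^ (10 / 3 : ℝ) := by
        unfold cD
        rw [g1, add_mul]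
        exact add_le_add (mul_le_mul_of_nonneg_left g2 g5) le_rfl
      have g8 : ν ≤ |N| := hνN.trans (le_abs_self N)
      calc cD V0 T0 R (R ^ (5 / 6 : ℝ)) * ν ≤ (200 * cK V0 T0 * (Dir V0 V0 / ip V0 V0)
          + 200 * cK V0 T0 * ((Dir T0 T0 + 1 + Dup) / β0)) * R ^ (10 / 3 : ℝ) * |N| :=
            mul_le_mul g7 g8 hν (by positivity)
        _ = (200 * cK V0 T0 * (Dir V0 V0 / ip V0 V0)
          + 200 * cK V0 T0 * ((Dir T0 T0 + 1 + Dup) / β0)) * |N| * R ^ (10 / 3 : ℝ) := by ring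
        _ ≤ R ^ (κ' * (1 - β) - 10 / 3) * R ^ (10 / 3 : ℝ) :=
            mul_le_mul_of_nonneg_right f1 g4.le
        _ = _ := g3.symm
    have h3 := hB ν hν 1 one_pos (by
      rw [one_mul, h1]
      exact h11)
    have e8 : (fun x => (1 : ℝ) • P0 U V0 (s ^ (-β)) s x)
        = fun x => U x + s ^ (-β) • dil s V0 x := by
      funext x
      rw [one_smul]
      rfl
    rw [e8] at h3
    refine h3.mono ?_
    rw [one_mul, h2, div_le_iff₀ (by positivity)]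
    have g3 : s ^ (5 - β) = R ^ (κ' * (5 - β) - 1) * R := by
      have : R ^ (κ' * (5 - β) - 1) * R = R ^ (κ' * (5 - β) - 1) * R ^ (1 : ℝ) := by
        rw [Real.rpow_one]
      rw [this, hsd, ← Real.rpow_mul hR0.le, ← Real.rpow_add hR0]
      congr 1
      ring
    rw [g3]
    have := mul_le_mul_of_nonneg_right f2 hR0.le
    linarith

end

end Pool.Agent.Run7.h407.G.X
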