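import Mathlib
import Pool.Agent.Run7.h407.DU.MainU

/-!
The perturbation of an arbitrary field near an arbitrary point, universal constraint fields.
-/

namespace Pool.Agent.Run7.h407.G.X

open Set Filter Topology MeasureTheory
open scoped ContDiff

variable {U : V → V} {q X δ : ℝ}

/-- The same at every point off the support. -/
theorem mainBU (M : Mst q X) (hq1 : q < 5 / 4) (hδ : 0 ≤ 1 + δ)
    (hη : 0 < 2 * (1 + δ) - q * (4 * q - 2))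
    (hU : CF U) (hd : ∀ x, dvg U x = 0) {z : V} (hz : ∀ᶠ x in 𝓝 z, U x = 0) {r ε N : ℝ}
    (hr : 0 < r) (hr3 : r < 3) (hqr : q ≤ 1 + (3 - r) / 8)
    (hε : 0 < ε) : ∃ k₀ : ℕ, ∀ k ≥ k₀, ∃ F : V → V, CF F ∧ (∀ x, dvg F x = 0) ∧
      (∀ x, F x ≠ 0 → ‖x - z‖ ≤ ε) ∧
      ∫ x, ‖F x‖ ^ r ≤ ε ∧ ∃ (p : ℕ → V → V) (g : ℕ → Fin 3 → V → V) (ρ : ℝ),
        Fam q z (fun x => U x + F x) p g ∧
        Tail (fun m => M.pre.sc.P (m + 1)) (G3 M.pre.sc.P) k z p g ∧ ∀ ν, 0 ≤ ν → ν ≤ N →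
          Blo δ z ρ p g ν (fun x => U x + F x) ε := by
  have hU' : CF (Tl (-z) U) := ⟨sm_Tl _ hU.sm, cs_Tl _ hU.cs⟩
  have hd' : ∀ x, dvg (Tl (-z) U) x = 0 := fun x => by rw [dvg_Tl, hd]
  obtain ⟨k₀, hk₀⟩ := mainB0U M hq1 hδ hη hU' hd' (Aw0_Tl hz) (N := N) hr hr3 hqr hε
  refine ⟨k₀, fun k hk => ?_⟩
  obtain ⟨F, f1, f2, f3, f4, p, g, ρ, hF, hT, hB⟩ := hk₀ k hk
  have e1 : Tl z (fun x => Tl (-z) U x + F x) = fun x => U x + Tl z F x := by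
    funext x
    show Tl (-z) U (x - z) + F (x - z) = U x + F (x - z)
    have := congrFun (Tl_inv z U) x
    rw [← this]
    rfl
  refine ⟨Tl z F, ⟨sm_Tl z f1.sm, cs_Tl z f1.cs⟩, fun x => by rw [dvg_Tl, f2],
    fun x hx => f3 _ hx, ?_, fun n => Tl z (p n), fun n i => Tl z (g n i), ρ, ?_, hT.tl z,
    fun ν h0 h1 => ?_⟩
  · exact (int_Tl z (fun x => ‖F x‖ ^ r)).le.trans f4
  · have := hF.tl (z := z)
    rw [e1] at this
    exact this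
  · have := (hB ν h0 h1).tl (z := z)
    rw [e1] at this
    exact this

/-- The perturbation of an arbitrary field near an arbitrary point. -/
theorem mainBzU (M : Mst q X) (hq1 : q < 5 / 4) (hδ : 0 ≤ 1 + δ)
    (hη : 0 < 2 * (1 + δ) - q * (4 * q - 2))
    (hU : CF U) (hd : ∀ x, dvg U x = 0) (z : V) {r ε N : ℝ} (hr : 0 < r) (hr3 : r < 3)
    (hqr : q ≤ 1 + (3 - r) / 8)
    (hε : 0 < ε) : ∃ k₀ : ℕ, ∀ k ≥ k₀, ∃ F : V → V, CF F ∧ (∀ x, dvg F x = 0) ∧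
      (∀ x, F x ≠ 0 → ‖x - z‖ ≤ ε) ∧
      ∫ x, ‖F x‖ ^ r ≤ ε ∧ ∃ (p : ℕ → V → V) (g : ℕ → Fin 3 → V → V) (ρ : ℝ),
        Fam q z (fun x => U x + F x) p g ∧
        Tail (fun m => M.pre.sc.P (m + 1)) (G3 M.pre.sc.P) k z p g ∧ ∀ ν, 0 ≤ ν → ν ≤ N →
          Blo δ z ρ p g ν (fun x => U x + F x) ε := by
  set η : ℝ := ε / (2 * 2 ^ r) with hη'
  have h2r : (1 : ℝ) ≤ 2 ^ r := Real.one_le_rpow (by norm_num) hr.le
  have hη0 : 0 < η := by positivity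
  have hηε : η ≤ ε := by
    rw [hη', div_le_iff₀ (by positivity)]
    nlinarith
  have hU' : CF (Tl (-z) U) := ⟨sm_Tl _ hU.sm, cs_Tl _ hU.cs⟩
  have hd' : ∀ x, dvg (Tl (-z) U) x = 0 := fun x => by rw [dvg_Tl, hd]
  obtain ⟨F0, a1, a2, a3, a4, a5⟩ := exists_cut hU' hd' hr hη0
  set F1 : V → V := Tl z F0 with hF1
  have b1 : CF F1 := ⟨sm_Tl z a1.sm, cs_Tl z a1.cs⟩
  have b2 : ∀ x, dvg F1 x = 0 := fun x => by rw [hF1, dvg_Tl, a2]
  have b3 : ∀ x, F1 x ≠ 0 → ‖x - z‖ ≤ η := fun x hx => a3 _ hx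
  have b4 : ∫ x, ‖F1 x‖ ^ r ≤ η := (int_Tl z (fun x => ‖F0 x‖ ^ r)).le.trans a4
  have b5 : ∀ᶠ x in 𝓝 z, U x + F1 x = 0 := by
    have h1 : Tendsto (fun x : V => x - z) (𝓝 z) (𝓝 0) := by
      have : Continuous (fun x : V => x - z) := by fun_prop
      have h2 := this.tendsto z
      rwa [sub_self] at h2
    filter_upwards [h1.eventually a5] with x hx
    have h3 := congrFun (Tl_inv z U) x
    have h4 : Tl z (Tl (-z) U) x = Tl (-z) U (x - z) := rfl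
    rw [← h3, h4]
    exact hx
  have hU1 : CF (fun x => U x + F1 x) := hU.add b1
  have hd1 : ∀ x, dvg (fun x => U x + F1 x) x = 0 := fun x => by
    rw [dvg_add hU b1, hd, b2, add_zero]
  obtain ⟨k₀, hk₀⟩ := mainBU M hq1 hδ hη hU1 hd1 b5 (N := N) hr hr3 hqr hη0
  refine ⟨k₀, fun k hk => ?_⟩
  obtain ⟨F2, c1, c2, c3, c4, p, g, ρ, hF, hT, hB⟩ := hk₀ k hk
  have e : (fun x => U x + F1 x + F2 x) = fun x => U x + (F1 x + F2 x) := by
    funext x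
    rw [add_assoc]
  rw [e] at hF hB
  refine ⟨fun x => F1 x + F2 x, b1.add c1, fun x => by rw [dvg_add b1 c1, b2, c2, add_zero],
    fun x hx => ?_, ?_, p, g, ρ, hF, hT, fun ν h0 h1 => (hB ν h0 h1).mono hηε⟩
  · by_cases h1 : F1 x = 0
    · have h2 : F2 x ≠ 0 := by
        intro h2
        apply hx
        show F1 x + F2 x = 0
        rw [h1, h2, add_zero]
      exact (c3 x h2).trans hηε
    · exact (b3 x h1).trans hηε
  · have i1 := rpow_int b1 hr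
    have i2 := rpow_int c1 hr
    have h1 : ∫ x, ‖F1 x + F2 x‖ ^ r ≤ ∫ x, 2 ^ r * (‖F1 x‖ ^ r + ‖F2 x‖ ^ r) := by
      apply integral_mono (rpow_int (b1.add c1) hr) ((i1.add i2).const_mul _)
      intro x
      exact rpow_add_bound (F1 x) (F2 x) hr
    rw [integral_const_mul, integral_add i1 i2] at h1
    refine h1.trans ?_
    have h2 : 2 ^ r * (η + η) = ε := by
      rw [hη']
      field_simp
      ring
    calc 2 ^ r * ((∫ x, ‖F1 x‖ ^ r) + ∫ x, ‖F2 x‖ ^ r) ≤ 2 ^ r * (η + η) :=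
          mul_le_mul_of_nonneg_left (add_le_add b4 c4) (by positivity)
      _ = ε := h2

end Pool.Agent.Run7.h407.G.X
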