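import Mathlib
import Pool.Agent.Run7.h407.DU.Chc
import Pool.Agent.Run7.h407.DE.ECh

/-!
The choice of the parameters for a given first field and universal scales, Euler equations.
-/

namespace Pool.Agent.Run7.h407.G.X

open Set Filter Topology MeasureTheory
open scoped ContDiff

/-- All the inequalities for the ratio `R` and the quotient `w` of the first scales. -/
structure ROv (V0 T0 φ : V → V) (l α R w : ℝ) : Prop where
  big : 1000 ≤ R
  bigα : 1000 ≤ R ^ α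
  w1 : 1 ≤ w
  e1 : 17 / 4 < w ^ 2 * l
  b1 : -tri T0 V0 T0 / 2 < -tri (Tc T0 φ (Real.exp (-(3 * R ^ α)))) V0 (Tc T0 φ (Real.exp (-(3 * R ^ α))))
  b2 : -tri (Tc T0 φ (Real.exp (-(3 * R ^ α)))) V0 (Tc T0 φ (Real.exp (-(3 * R ^ α))))
    < 2 * -tri T0 V0 T0
  i1 : ip (Tc T0 φ (Real.exp (-(3 * R ^ α)))) (Tc T0 φ (Real.exp (-(3 * R ^ α)))) < ip T0 T0 + 1
  d1 : Dir (Tc T0 φ (Real.exp (-(3 * R ^ α)))) (Tc T0 φ (Real.exp (-(3 * R ^ α)))) < Dir T0 T0 + 1
  e4 : 10000 * ((2 * -tri T0 V0 T0) ^ 2 * Nup ^ 2 / (ip V0 V0 * β0 * β0 ^ 2)) * (R ^ α) ^ 2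
    ≤ w ^ 10
  e5 : Dir V0 V0 / ip V0 V0 * (ip T0 T0 + 1 + Nup) / S0 ≤ w ^ 4
  e6 : (Dir T0 T0 + 1 + Dup) * Nup / (β0 * S0) ≤ R ^ 4
  e7 : 4 * ((2 * -tri T0 V0 T0) ^ 2 * Nup) / (β0 * β0) * R ^ α ≤ w ^ 5 * Real.exp (R ^ α)
  e8 : 4 * ((ip T0 T0 + 1 + Nup) * β0 / ((-tri T0 V0 T0 / 2) ^ 2 * β0))
    * (w ^ 5 * Real.exp (-(0.7 * R ^ α))) ≤ 1 / 100
  e9 : (ip T0 T0 + 1 + Nup) * β0 / ((-tri T0 V0 T0 / 2) ^ 2 * β0)
    * (w ^ 5 * Real.exp (-(3 * R ^ α))) ≤ 1 / 1000000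

variable {U V0 T0 φ : V → V} {l R1 lU s b : ℝ}

theorem Prt.lnkV (h : Prt U V0 T0 φ l R1 lU s b) {α q R w s0 : ℝ} (hR' : ROv V0 T0 φ l α R w)
    (hp : Pre α q s0 R) (hs0 : s0 = w * s) {RU : ℝ} (hRU : ∀ x, U x ≠ 0 → ‖x‖ ≤ RU) :
    Lnk (P0 U V0 b s) (dil s (Tc T0 φ (Real.exp (-(3 * R ^ α))))) (l / s ^ 2) (max R1 RU)
      hp (R ^ α) (Dir (Tc T0 φ (Real.exp (-(3 * R ^ α)))) (Tc T0 φ (Real.exp (-(3 * R ^ α))))) 0 1 ∧
    kapG (hp.sc.Q (P0 U V0 b s) (dil s (Tc T0 φ (Real.exp (-(3 * R ^ α)))))) 1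
      ≤ 2 * (ip T0 T0 + 1 + Nup) / -tri T0 V0 T0 / (b * s ^ 5) ∧
    Dir (P0 U V0 b s) (P0 U V0 b s) / ip (P0 U V0 b s) (P0 U V0 b s)
      ≤ s ^ 4 * (Dir V0 V0 / ip V0 V0) := by
  have hβ := β0_pos
  have hS := S0_pos
  have hs := h.s0
  have hb := h.b0
  have hN := h.S.n0
  have hb0 := h.S.b0
  have hDV := Dir_nonneg' V0
  have hDU := Dir_nonneg' U
  have hUU := ip_nonneg U
  have hR := hR'.big
  have hw := hR'.w1
  have hR0 : 0 < R := by linarith
  have hw0 : 0 < w := by linarith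
  have e4 := hR'.e4
  have e5 := hR'.e5
  have e6 := hR'.e6
  have e7 := hR'.e7
  have e8 := hR'.e8
  have e9 := hR'.e9
  have e2a := hR'.b1
  have e2b := hR'.b2
  have e3a := hR'.i1
  have e3b := hR'.d1
  have hip0 := h.ip0
  have hDir0 := h.Dir0
  set c := Real.exp (-(3 * R ^ α)) with hc
  set N := ip V0 V0 with hNd
  set D := Dir V0 V0 with hDd
  set b0 := -tri T0 V0 T0 with hbd
  set M1 := ip T0 T0 + 1 with hM1
  set M2 := Dir T0 T0 + 1 with hM2
  have hM1p : 0 < M1 := by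
    have := ip_nonneg T0
    linarith
  have hM2p : 0 < M2 := by
    have := Dir_nonneg' T0
    linarith
  have hcp : 0 < c := Real.exp_pos _
  have hbb := h.bb c
  have hcc := h.cc c
  have hd := h.dat c hRU
  set T := Tc T0 φ c with hT
  have cT : CF T := (h.S.dat c).ct
  have hσ0 : hp.sc.σ 0 = w * s := hp.sc.σ_zero.trans hs0
  have hl : 17 / 4 < hp.sc.σ 0 ^ 2 * (l / s ^ 2) := by
    have : hp.sc.σ 0 ^ 2 * (l / s ^ 2) = w ^ 2 * l := by
      rw [hσ0]
      field_simp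
    rw [this]
    exact hR'.e1
  have hTT := ip_nonneg T
  have hDT := Dir_nonneg' T
  have iT : ip (dil s T) (dil s T) = ip T T := ip_dil _ _ hs
  have dT : Dir (dil s T) (dil s T) = s ^ 4 * Dir T T := Dir_dil cT.smc cT.smc hs
  have hDup := Dup_nonneg hp.sc
  have n1 := hp.sc.nn_low 0
  have n2 := hp.sc.nn_up 0
  have n3 := hp.sc.nn_low 1
  have n4 := hp.sc.nn_up 1
  have n5 := hp.sc.dd_low 0
  simp only [zero_add] at n1 n2 n3 n4 n5
  rw [show (1 : ℕ) + 1 = 2 from rfl] at n3 n4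
  have hNup : 0 < Nup := hβ.trans_le (n1.trans n2)
  have hRαp : 0 < R ^ α := Real.rpow_pos_of_pos hR0 _
  set Q := hp.sc.Q (P0 U V0 b s) (dil s T) with hQ
  have g1 : Bb Q 1 = b * (s ^ 5 * -tri T V0 T) := by
    rw [← hbb]
    exact Sc.bQ1 hd hl
  have g2 : Bb Q 2 = (w * s) ^ 5 * β0 := by
    rw [← hσ0]
    exact Sc.bQ2 hd hl
  have g3 : Cc Q 1 = b ^ 2 * (s ^ 5 * c) := by
    rw [← hcc]
    exact Sc.cQ1 hd hl
  have g4 : Nn Q 1 = ip U U + b ^ 2 * N := hip0
  have g5 : Nn Q 2 = ip T T + Nn hp.sc.P 1 := by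
    rw [← iT]
    exact Sc.nQ2 hd hl
  have g6 : Nn Q 3 = Nn hp.sc.P 2 := rfl
  have hw5 : 0 < w ^ 5 := by positivity
  -- bounds of `e`
  have ee : Ee Q 1
      = c * (ip T T + Nn hp.sc.P 1) * (w ^ 5 * β0) / ((-tri T V0 T) ^ 2 * Nn hp.sc.P 2) := by
    show Cc Q 1 * Nn Q 2 * Bb Q 2 / (Bb Q 1 ^ 2 * Nn Q 3) = _
    rw [g1, g2, g3, g5, g6]
    have hbp : -tri T V0 T ≠ 0 := by linarith
    have hnp : Nn hp.sc.P 2 ≠ 0 := by linarith
    have htp : tri T V0 T ≠ 0 := by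
      intro h9
      rw [h9] at hbp
      simp at hbp
    field_simp
  have hsq1 : (-tri T V0 T) ^ 2 ≤ (2 * b0) ^ 2 := pow_le_pow_left₀ (by linarith) e2b.le 2
  have hsq2 : (b0 / 2) ^ 2 ≤ (-tri T V0 T) ^ 2 := pow_le_pow_left₀ (by linarith) e2a.le 2
  have hbp : 0 < -tri T V0 T := by linarith
  have w1 : 0 < ip T T + Nn hp.sc.P 1 := by linarith
  have w2 : 0 < Nn hp.sc.P 2 := hβ.trans_le n3
  have w3 : 0 < (-tri T V0 T) ^ 2 := pow_pos hbp 2
  have eup : Ee Q 1 ≤ (M1 + Nup) * β0 / ((b0 / 2) ^ 2 * β0) * (w ^ 5 * c) := by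
    rw [ee]
    have e : (M1 + Nup) * β0 / ((b0 / 2) ^ 2 * β0) * (w ^ 5 * c)
        = c * (M1 + Nup) * (w ^ 5 * β0) / ((b0 / 2) ^ 2 * β0) := by ring
    rw [e]
    apply div_le_div₀ (by positivity) _ (by positivity)
    · exact mul_le_mul hsq2 n3 hβ.le (by positivity)
    · apply mul_le_mul_of_nonneg_right _ (by positivity)
      apply mul_le_mul_of_nonneg_left _ hcp.le
      linarith
  have elow : β0 * β0 / ((2 * b0) ^ 2 * Nup) * (w ^ 5 * c) ≤ Ee Q 1 := by
    rw [ee]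
    have e : β0 * β0 / ((2 * b0) ^ 2 * Nup) * (w ^ 5 * c)
        = c * β0 * (w ^ 5 * β0) / ((2 * b0) ^ 2 * Nup) := by ring
    rw [e]
    apply div_le_div₀ (by positivity) _ (mul_pos w3 w2)
    · exact mul_le_mul hsq1 n4 (hβ.le.trans n3) (by positivity)
    · apply mul_le_mul_of_nonneg_right _ (by positivity)
      apply mul_le_mul_of_nonneg_left _ hcp.le
      linarith
  have hep : 0 < Ee Q 1 := lt_of_lt_of_le (by positivity) elow
  have hquo : Dir (P0 U V0 b s) (P0 U V0 b s) / ip (P0 U V0 b s) (P0 U V0 b s)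
      ≤ s ^ 4 * (D / N) := by
    rw [hip0, hDir0, div_le_iff₀ (by positivity)]
    have h1 := h.hD
    have h2 : Dir U U ≤ s ^ 4 * (D / N) * ip U U := by
      have h3 : s ^ 4 * (D / N) * ip U U = s ^ 4 * D * ip U U / N := by ring
      rw [h3, le_div_iff₀ hN]
      exact h1
    have h4 : s ^ 4 * (D / N) * (b ^ 2 * N) = b ^ 2 * (s ^ 4 * D) := by
      field_simp
    linarith
  refine ⟨?_, ?_, hquo⟩
  · exact
    { hd := hd
      hl := hl
      hb := by
        rw [hbb]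
        positivity
      hc := by
        rw [hcc]
        positivity
      hL := hR'.bigα
      hL' := le_rfl
      h1 := by
        show Bb Q 1 ^ 2 * Nn Q 3 ^ 2 / (Nn Q 1 * Nn Q 2 * Bb Q 2 ^ 2)
            * (R ^ α) ^ 2 ≤ 1 / 10000
        rw [g1, g2, g4, g5, g6]
        have k1 : (b * (s ^ 5 * -tri T V0 T)) ^ 2 * Nn hp.sc.P 2 ^ 2
            / ((ip U U + b ^ 2 * N) * (ip T T + Nn hp.sc.P 1) * ((w * s) ^ 5 * β0) ^ 2)
            ≤ (b * (s ^ 5 * (2 * b0))) ^ 2 * Nup ^ 2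
              / ((b ^ 2 * N) * β0 * ((w * s) ^ 5 * β0) ^ 2) := by
          apply div_le_div₀ (by positivity) _ (by positivity)
          · apply mul_le_mul_of_nonneg_right _ (by positivity)
            apply mul_le_mul _ (by linarith) hβ.le (by positivity)
            linarith
          · have k3 : (b * (s ^ 5 * -tri T V0 T)) ^ 2 ≤ (b * (s ^ 5 * (2 * b0))) ^ 2 := by
              apply pow_le_pow_left₀ (by positivity)
              apply mul_le_mul_of_nonneg_left _ hb.le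
              exact mul_le_mul_of_nonneg_left e2b.le (by positivity)
            exact mul_le_mul k3 (pow_le_pow_left₀ (hβ.le.trans n3) n4 2) (sq_nonneg _)
              (sq_nonneg _)
        refine (mul_le_mul_of_nonneg_right k1 (by positivity)).trans ?_
        have k2 : (b * (s ^ 5 * (2 * b0))) ^ 2 * Nup ^ 2
            / ((b ^ 2 * N) * β0 * ((w * s) ^ 5 * β0) ^ 2) * (R ^ α) ^ 2
            = (2 * b0) ^ 2 * Nup ^ 2 / (N * β0 * β0 ^ 2) * (R ^ α) ^ 2 / w ^ 10 := by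
          field_simp
        rw [k2, div_le_div_iff₀ (by positivity) (by norm_num)]
        linarith
      h2 := by
        refine hquo.trans ?_
        rw [iT, dT, le_div_iff₀ w1]
        rw [div_le_iff₀ hS] at e5
        rw [hσ0] at n5
        have k1 : D / N * (ip T T + Nn hp.sc.P 1) ≤ D / N * (M1 + Nup) :=
          mul_le_mul_of_nonneg_left (by linarith) (by positivity)
        have k2 : s ^ 4 * (D / N * (ip T T + Nn hp.sc.P 1)) ≤ s ^ 4 * (w ^ 4 * S0) :=
          mul_le_mul_of_nonneg_left (k1.trans e5) (by positivity)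
        have k3 : 0 ≤ s ^ 4 * Dir T T := by positivity
        have k4 : (w * s) ^ 4 * S0 = s ^ 4 * (w ^ 4 * S0) := by ring
        linarith
      hDT := by
        rw [dT, hσ0]
        apply mul_le_mul_of_nonneg_right _ hDT
        apply pow_le_pow_left₀ hs.le
        nlinarith
      h3 := by
        refine le_trans ?_ e6
        apply div_le_div_of_nonneg_right _ (by positivity)
        apply mul_le_mul_of_nonneg_right _ hNup.le
        linarith
      hν := le_rfl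
      ha0 := one_pos
      h4 := by simp
      h5 := by simp
      h6 := fun k => by
        have : 0 ≤ ∏ i ∈ Finset.range (k + 1), rh R q i ^ α :=
          Finset.prod_nonneg fun i _ => Real.rpow_nonneg (hp.rh_pos _).le _
        simpa using this
      h7 := by
        have k1 : Real.exp (4 * R ^ α) = Real.exp (R ^ α) * Real.exp (3 * R ^ α) := by
          rw [← Real.exp_add]
          congr 1
          ring
        have k2 : c * Real.exp (3 * R ^ α) = 1 := by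
          rw [hc, ← Real.exp_add]
          simp
        have k3 : 2 ≤ Real.exp (4 * R ^ α) := by
          have := Real.add_one_le_exp (4 * R ^ α)
          linarith [hR'.bigα]
        have e7' : 4 * ((2 * b0) ^ 2 * Nup) * R ^ α ≤ w ^ 5 * Real.exp (R ^ α) * (β0 * β0) := by
          have h1 : 4 * ((2 * b0) ^ 2 * Nup) / (β0 * β0) * R ^ α
              = 4 * ((2 * b0) ^ 2 * Nup) * R ^ α / (β0 * β0) := by ring
          rw [h1, div_le_iff₀ (by positivity)] at e7
          exact e7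
        have k4 : 4 * R ^ α ≤ Ee Q 1 * Real.exp (4 * R ^ α) := by
          calc 4 * R ^ α = 4 * ((2 * b0) ^ 2 * Nup) * R ^ α / ((2 * b0) ^ 2 * Nup) := by
                field_simp
            _ ≤ w ^ 5 * Real.exp (R ^ α) * (β0 * β0) / ((2 * b0) ^ 2 * Nup) :=
                div_le_div_of_nonneg_right e7' (by positivity)
            _ = β0 * β0 / ((2 * b0) ^ 2 * Nup) * (w ^ 5 * c)
                * (Real.exp (R ^ α) * Real.exp (3 * R ^ α)) := by
                have : β0 * β0 / ((2 * b0) ^ 2 * Nup) * (w ^ 5 * c)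
                  * (Real.exp (R ^ α) * Real.exp (3 * R ^ α))
                    = w ^ 5 * Real.exp (R ^ α) * (β0 * β0)
                    / ((2 * b0) ^ 2 * Nup) * (c * Real.exp (3 * R ^ α)) := by ring
                rw [this, k2, mul_one]
            _ ≤ _ := by
                rw [k1]
                exact mul_le_mul_of_nonneg_right elow (by positivity)
        have k6 : 2 * Ee Q 1 ≤ Ee Q 1 * Real.exp (4 * R ^ α) := by
          rw [mul_comm]
          exact mul_le_mul_of_nonneg_left k3 hep.le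
        linarith
      h8 := by
        have k1 : c * Real.exp (2.3 * R ^ α) = Real.exp (-(0.7 * R ^ α)) := by
          rw [hc, ← Real.exp_add]
          congr 1
          ring
        calc 4 * Ee Q 1 * Real.exp (2.3 * R ^ α)
            ≤ 4 * ((M1 + Nup) * β0 / ((b0 / 2) ^ 2 * β0) * (w ^ 5 * c))
              * Real.exp (2.3 * R ^ α) := by
              apply mul_le_mul_of_nonneg_right _ (Real.exp_pos _).le
              exact mul_le_mul_of_nonneg_left eup (by norm_num)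
          _ = 4 * ((M1 + Nup) * β0 / ((b0 / 2) ^ 2 * β0))
              * (w ^ 5 * (c * Real.exp (2.3 * R ^ α))) := by ring
          _ ≤ _ := by
              rw [k1]
              exact e8
      h9 := by
        refine eup.trans ?_
        exact e9 }
  · show Nn Q 2 / Bb Q 1 ≤ _
    rw [g1, g5]
    have k1 : 2 * (M1 + Nup) / b0 / (b * s ^ 5) = (M1 + Nup) / (b * (s ^ 5 * (b0 / 2))) := by
      field_simp
    rw [k1]
    apply div_le_div₀ (by positivity) (by linarith) (by positivity)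
    apply mul_le_mul_of_nonneg_left _ hb.le
    exact mul_le_mul_of_nonneg_left e2a.le (by positivity)

/-- The inequalities hold for large ratios. -/
theorem Src.evV {V0 : V → V} (S : Src V0 T0 φ l R1) {α μ : ℝ} (hα : 0 < α) (hμ : α < 5 * μ) :
    ∀ᶠ R : ℝ in atTop, ROv V0 T0 φ l α R (R ^ μ) := by
  have hl0 := S.l0
  have hb0 := S.b0
  have hμ0 : 0 < μ := by linarith
  have hw : ∀ (k : ℕ), k ≠ 0 → ∀ c : ℝ, ∀ᶠ x : ℝ in atTop, c ≤ (x ^ μ) ^ k := fun k hk c =>
    ((tendsto_pow_atTop hk).comp (tendsto_rpow_atTop hμ0)).eventually_ge_atTop _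
  have hp : ∀ (k : ℕ), k ≠ 0 → ∀ c : ℝ, ∀ᶠ x : ℝ in atTop, c ≤ x ^ k := fun k hk c =>
    (tendsto_pow_atTop hk).eventually_ge_atTop _
  have pexp : ∀ (K : ℝ) {c : ℝ}, 0 < c → Tendsto (fun x : ℝ => K * ((x ^ μ) ^ 5
      * Real.exp (-(c * x ^ α)))) atTop (𝓝 0) := by
    intro K c hc
    have h1 := (exp_tend hα (μ * 5) hc).const_mul K
    rw [mul_zero] at h1
    apply h1.congr'
    filter_upwards [eventually_gt_atTop 0] with x hx
    rw [Real.rpow_mul hx.le]
    norm_num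
  have E1 := hw 2 two_ne_zero ((17 / 4 + 1) / l)
  have E2a := (quad_tendE hα (-tri T0 V0 T0) (-tri T0 V0 φ - tri φ V0 T0)
    (-tri φ V0 φ)).eventually_const_lt (show -tri T0 V0 T0 / 2 < -tri T0 V0 T0 by linarith)
  have E2b := (quad_tendE hα (-tri T0 V0 T0) (-tri T0 V0 φ - tri φ V0 T0)
    (-tri φ V0 φ)).eventually_lt_const (show -tri T0 V0 T0 < 2 * -tri T0 V0 T0 by linarith)
  have E3a := (quad_tendE hα (ip T0 T0) (2 * ip T0 φ) (ip φ φ)).eventually_lt_const
    (show ip T0 T0 < ip T0 T0 + 1 by linarith)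
  have E3b := (quad_tendE hα (Dir T0 T0) (2 * Dir T0 φ) (Dir φ φ)).eventually_lt_const
    (show Dir T0 T0 < Dir T0 T0 + 1 by linarith)
  have E4 : ∀ᶠ x : ℝ in atTop, 10000 * ((2 * -tri T0 V0 T0) ^ 2 * Nup ^ 2
      / (ip V0 V0 * β0 * β0 ^ 2)) ≤ x ^ (10 * μ - 2 * α) :=
    (tendsto_rpow_atTop (by linarith)).eventually_ge_atTop _
  have E5 := hw 4 four_ne_zero (Dir V0 V0 / ip V0 V0 * (ip T0 T0 + 1 + Nup) / S0)
  have E6 := hp 4 four_ne_zero ((Dir T0 T0 + 1 + Dup) * Nup / (β0 * S0))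
  have E7 : ∀ᶠ x : ℝ in atTop, 4 * ((2 * -tri T0 V0 T0) ^ 2 * Nup) / (β0 * β0)
      * (x ^ α * Real.exp (-(1 * x ^ α))) ≤ 1 := by
    have h1 := (exp_tend hα α (b := 1) one_pos).const_mul
      (4 * ((2 * -tri T0 V0 T0) ^ 2 * Nup) / (β0 * β0))
    rw [mul_zero] at h1
    exact h1.eventually_le_const (u := 1) (by norm_num)
  have E8 := (pexp (4 * ((ip T0 T0 + 1 + Nup) * β0 / ((-tri T0 V0 T0 / 2) ^ 2 * β0)))
    (c := 0.7) (by norm_num)).eventually_le_const (show (0 : ℝ) < 1 / 100 by norm_num)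
  have E9 := (pexp ((ip T0 T0 + 1 + Nup) * β0 / ((-tri T0 V0 T0 / 2) ^ 2 * β0))
    (c := 3) (by norm_num)).eventually_le_const (show (0 : ℝ) < 1 / 1000000 by norm_num)
  have E10 : ∀ᶠ x : ℝ in atTop, 1000 ≤ x ^ α := (tendsto_rpow_atTop hα).eventually_ge_atTop _
  filter_upwards [E1, E2a, E2b, E3a, E3b, E4, E5, E6, E7, E8, E9, E10, eventually_ge_atTop 1000]
    with R e1 e2a e2b e3a e3b e4 e5 e6 e7 e8 e9 e10 hR
  have hR0 : 0 < R := by linarith
  have hwp : 1 ≤ R ^ μ := Real.one_le_rpow (by linarith) hμ0.le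
  rw [← S.bT] at e2a e2b
  rw [← S.iT] at e3a
  rw [← S.DT] at e3b
  refine ⟨hR, e10, hwp, ?_, e2a, e2b, e3a, e3b, ?_, e5, e6, ?_, e8, e9⟩
  · rw [div_le_iff₀ hl0] at e1
    linarith
  · have h1 : (R ^ μ) ^ 10 = R ^ (10 * μ - 2 * α) * (R ^ α) ^ 2 := by
      rw [← Real.rpow_natCast (R ^ μ) 10, ← Real.rpow_mul hR0.le, ← Real.rpow_natCast (R ^ α) 2,
        ← Real.rpow_mul hR0.le, ← Real.rpow_add hR0]
      congr 1
      push_cast
      ring
    rw [h1]
    exact mul_le_mul_of_nonneg_right e4 (by positivity)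
  · have h2 : Real.exp (-(1 * R ^ α)) * Real.exp (R ^ α) = 1 := by
      rw [← Real.exp_add]
      simp
    have h3 := mul_le_mul_of_nonneg_right e7 (Real.exp_pos (R ^ α)).le
    rw [mul_assoc, mul_assoc, h2, mul_one, one_mul] at h3
    refine h3.trans ?_
    have h5 : 1 ≤ (R ^ μ) ^ 5 := one_le_pow₀ hwp
    nlinarith [Real.exp_pos (R ^ α)]

end Pool.Agent.Run7.h407.G.X
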