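import Mathlib
import Pool.Agent.Run7.h407.DU.ChcE
import Pool.Agent.Run7.h407.DE.FinE

/-!
Blow-up with constraint fields of which all but six are universal, Euler equations.
-/

namespace Pool.Agent.Run7.h407.G.X

open Set Filter Topology MeasureTheory
open scoped ContDiff

section torus

variable {Q : ℕ → V → V} {lo hi : ℕ → ℝ} {R r : ℝ} {z : V}

/-- From the whole space to the torus. -/
theorem ECh.torE {δ q ε₀ A₀ : ℝ} {U : V → V} (H : ECh δ q ε₀ A₀ U Q) (hr : r < Real.pi)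
    (hsU : ∀ x ∈ tsupport U, ‖x + z‖ ≤ r) (hsε : ε₀ + ‖z‖ ≤ r) :
    FamT q z (pz z U) (fun n => pz z (Q (n + 1))) (GT Q z) ∧
      ∀ a > 0, BloT δ z (fun n => pz z (Q (n + 1))) (GT Q z) (fun x => a • pz z U x)
        (A₀ / a) := by
  obtain ⟨lo, hi, R, hch⟩ := H.chn
  have hzr : ‖z‖ < Real.pi ∨ ε₀ < 0 := by
    rcases lt_or_ge ε₀ 0 with h | h
    · exact Or.inr h
    · left
      linarith
  have hS : ∀ n, Sb r (Tl z (Q n)) := by
    intro n x hx
    rcases H.supp n (x - z) hx with h | h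
    · have := hsU _ h
      rwa [sub_add_cancel] at this
    · have h2 : ‖x‖ ≤ ‖x - z‖ + ‖z‖ := by
        have := norm_add_le (x - z) z
        rwa [sub_add_cancel] at this
      linarith
  have hG : ∀ n i, L2T (GT Q z n i) := fun n i =>
    L2T_of_cont (GT_smooth hch hr hS n i).continuous
  have hcurl : ∀ {Tb : ℝ} {u : ℝ → V → V}, 0 < Tb → (∀ t ∈ Ico 0 Tb, CF (u t)) →
      (∀ t ∈ Ico 0 Tb, Sb r (Tl z (u t))) →
      (∀ M, ∀ᶠ t in 𝓝[<] Tb, ∃ x : V, ‖x‖ ≤ ε₀ ∧ M < curl2 (u t) x) →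
      ∀ M, ∀ᶠ t in 𝓝[<] Tb, ∃ x ∈ cube, M < curl2 (pz z (u t)) x := by
    intro Tb u hTb hc hs hb M
    filter_upwards [hb M, Ioo_mem_nhdsLT hTb] with t ht htI
    obtain ⟨x, hx1, hx2⟩ := ht
    have htm : t ∈ Ico 0 Tb := ⟨htI.1.le, htI.2⟩
    have hxc : x + z ∈ cube := mem_cube_of_lt (by
      have := norm_add_le x z
      linarith)
    refine ⟨x + z, hxc, ?_⟩
    rw [curl2_pz hr (hc t htm) (hs t htm), red_self hxc, add_sub_cancel_right]
    exact hx2
  refine ⟨⟨?_, fun n => ⟨?_, ?_, fun x => ?_, ?_⟩,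
    fun m n hmn => ?_, fun n i => ⟨GT_smooth hch hr hS n i, GT_per Q z n i, ?_⟩,
    fun n i x hx hne => ?_, ⟨WmaxT (GT Q z) hG, WmaxT_isSpR hch hr hS hG, fun w => Iff.rfl⟩⟩,
    fun a ha => ?_⟩
  · show pz z (Q 1) = pz z U
    rw [H.one]
  · exact pex_smoothR hr (sm_Tl z (hch.cf _).sm) (hS _)
  · exact pex_per _
  · rw [dvg_pz hr (hch.cf _) (hS _)]
    exact hch.dv _ _
  · rw [ipT_pz2 hr (hS _)]
    exact hch.N0 n
  · show ipT (pz z (Q (m + 1))) (pz z (Q (n + 1))) = 0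
    rw [ipT_pz2 hr (hS _)]
    exact (hch.orth (by omega)).1
  · have key : ∀ f : V → V, Sb r (Tl z f) → Aw0 f → ∀ᶠ x in 𝓝 z, pz z f x = 0 := by
      rintro f hf ⟨b, hb, hz⟩
      have ho : IsOpen {y : V | ‖y - z‖ < b} :=
        isOpen_lt (continuous_id.sub continuous_const).norm continuous_const
      rcases hzr with hzr | hzr
      · have ho2 : IsOpen {y : V | ‖y‖ < Real.pi} := isOpen_lt continuous_norm continuous_const
        filter_upwards [ho.mem_nhds (show ‖z - z‖ < b by rw [sub_self, norm_zero]; exact hb),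
          ho2.mem_nhds hzr] with y hy hy2
        unfold pz
        rw [pex_cube _ (mem_cube_of_lt hy2)]
        exact hz _ hy
      · -- there is nothing near `z`
        exfalso
        obtain ⟨Tb, h1, h2, u, h3, h4, h5, h6, h7, h8, h9⟩ := H.sol 1 one_pos
        obtain ⟨t, x, hx, -⟩ := (h9 0).exists
        linarith [norm_nonneg x]
    fin_cases i
    · exact key _ (GA_sbT hS n) (ChN.aw_A hch n)
    · exact key _ (GB_sbT hS n) (ChN.aw_B hch n)
  · have h1 := H.ball n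
    fin_cases i
    · have h2 : pz z (GA Q (n + 3)) x ≠ 0 := hne
      unfold pz at h2
      rw [pex_cube _ hx] at h2
      exact h1.1 (x - z) h2
    · have h2 : pz z (GB Q (n + 3)) x ≠ 0 := hne
      unfold pz at h2
      rw [pex_cube _ hx] at h2
      exact h1.2 (x - z) h2
  · obtain ⟨Tb, h1, h2, u, h3, h4, h5, h6, ⟨C1, h7⟩, ⟨C2, h8⟩, h9⟩ := H.sol a ha
    have hmemb : ∀ t ∈ Ico 0 Tb, Sb r (Tl z (u t)) := by
      intro t ht x hx
      obtain ⟨c, hc⟩ := (h5 t ht).2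
      by_contra hcon
      push Not at hcon
      apply hx
      have h10 := hc (x - z)
      have h11 : (fun n => c n • Q n (x - z)) = fun _ => 0 := by
        funext n
        have : Tl z (Q n) x = 0 := by
          by_contra h12
          exact absurd (hS n x h12) (not_le.2 hcon)
        have h13 : Q n (x - z) = 0 := this
        rw [h13, smul_zero]
      rw [h11] at h10
      exact h10.unique hasSum_zero
    have hsmT : ContDiffOn ℝ ∞ (fun y : ℝ × V => Tl z (u y.1) y.2) (Ico 0 Tb ×ˢ univ) := by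
      have h12 : ContDiff ℝ ∞ (fun y : ℝ × V => (y.1, y.2 - z)) :=
        contDiff_fst.prodMk (contDiff_snd.sub contDiff_const)
      exact h4.comp h12.contDiffOn (fun y hy => ⟨hy.1, mem_univ _⟩)
    have hsm := pex_smoothTR hr hsmT hmemb
    have hcf : ∀ t ∈ Ico 0 Tb, CF (u t) := fun t ht => (h5 t ht).1
    have hdf : ∀ t ∈ Ico 0 Tb, ∀ i, Differentiable ℝ (fun y => Tl z (u t) y i) :=
      fun t ht i => smt_diff (sm_Tl z (hcf t ht).sm) i
    have hcu := hcurl h1 hcf hmemb h9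
    have hpr : ∀ W : Submodule ℝ (V → V), IsSpT (fun n => pz z (Q (n + 1))) (GT Q z) W →
        IsProjT W Tb (fun t => pz z (u t)) := by
      intro W hW
      refine ⟨hsm.of_le (by norm_cast), fun t ht => ?_, fun t ht w hw' => ?_⟩
      · obtain ⟨c, hc⟩ := (h5 t ht).2
        refine hW.mem _ (pex_smoothR hr (sm_Tl z (hcf t ht).sm) (hmemb t ht)) (pex_per _)
          ⟨fun n => c (n + 1), fun x => ?_⟩
        exact hasSum_shift hch.zero hc (red x - z)
      · have htm : t ∈ Ico 0 Tb := ⟨ht.1.le, ht.2⟩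
        have e1 := res_indR hr (w := fun t => Tl z (u t)) htm hdf hmemb w
        refine e1.trans ?_
        have h14 := h6 t ht _ (con_indT (hW.l2 w hw') (hW.cs w hw'))
        rw [← int_Tl z] at h14
        refine (congrArg (fun F => ∫ x, F x) (funext fun x => ?_)).trans h14
        apply Finset.sum_congr rfl
        intro i _
        have e2 : Tl (-z) (cube.indicator w) (x - z) = cube.indicator w x := by
          show cube.indicator w (x - z - -z) = _
          congr 1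
          abel
        rw [e2]
        congr 1
        unfold residual
        simp only [zero_mul, sub_zero]
        congr 1
        apply Finset.sum_congr rfl
        intro j _
        exact congrArg₂ (· * ·) rfl (pd_Tl z (fun y => u t y i) j x)
    refine ⟨Tb, h1, h2, fun t => pz z (u t), hsm, ?_, ⟨C1, fun t ht x => h7 t ht _⟩,
      ⟨C2, fun t ht x hx i j => ?_⟩, fun M => ?_, fun W hW => ⟨hpr W hW, fun T' w hw h0 => ?_⟩⟩
    · funext x
      exact h3 (red x - z)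
    · have e1 : (fun y => (fun t => pz z (u t)) t y i) = fun y => pex (Tl z (u t)) y i := rfl
      rw [e1, pd_pexR hr (smt_diff (sm_Tl z (hcf t ht).sm)) (hmemb t ht), red_self hx]
      have e2 : pd j (fun y => Tl z (u t) y i) x = pd j (fun y => u t y i) (x - z) :=
        pd_Tl z (fun y => u t y i) j x
      rw [e2]
      exact h8 t ht (x - z) i j
    · filter_upwards [hcu M] with t ht
      obtain ⟨x, _, hx⟩ := ht
      exact ⟨x, hx⟩
    · refine projT_maxR hW h1 (hpr W hW) hcu hw fun x => ?_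
      rw [h0]
      exact (h3 (red x - z)).symm

end torus

/-- The universal fields. -/
structure UFE (q : ℝ) (P : ℕ → V → V) (G : ℕ → Fin 2 → V → V) : Prop where
  mode : ∀ m, ContDiff ℝ ∞ (P m) ∧ HasCompactSupport (P m) ∧ (∀ x, dvg (P m) x = 0) ∧
    0 < ip (P m) (P m)
  field : ∀ m i, ContDiff ℝ ∞ (G m i) ∧ HasCompactSupport (G m i) ∧ ∀ᶠ x in 𝓝 0, G m i x = 0
  ballP : ∀ m x, P m x ≠ 0 → ‖x‖ ≤ (2 : ℝ) ^ (-(q ^ m))
  ballG : ∀ m i x, G m i x ≠ 0 → ‖x‖ ≤ (2 : ℝ) ^ (-(q ^ m))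

/-- The two constraint fields. -/
noncomputable def G2' (P : ℕ → V → V) (m : ℕ) : Fin 2 → V → V := ![GA P m, GB P m]

/-- The modes and constraint fields with `n ≥ 3` are universal. -/
def TailE (P : ℕ → V → V) (G : ℕ → Fin 2 → V → V) (k : ℕ) (z : V) (p : ℕ → V → V)
    (g : ℕ → Fin 2 → V → V) : Prop :=
  ∀ n, (∀ x ∈ cube, p (n + 3) x = P (n + 3 + k) (x - z)) ∧
    ∀ i, ∀ x ∈ cube, g (n + 3) i x = G (n + 3 + k) i (x - z)

/-- The tail of the chain on the whole space. -/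
def TlQ (P : ℕ → V → V) (k : ℕ) (Q : ℕ → V → V) : Prop :=
  ∀ n, Q (n + 3) = P (n + 3 + k)

theorem TlQ.tail {P Q : ℕ → V → V} {k : ℕ} (h : TlQ P k Q) (z : V) :
    TailE (fun m => P (m + 1)) (G2' P) k z (fun n => pz z (Q (n + 1))) (GT Q z) := by
  intro n
  have key : ∀ (f : V → V), ∀ x ∈ cube, pz z f x = f (x - z) := by
    intro f x hx
    unfold pz
    rw [pex_cube _ hx]
    rfl
  refine ⟨fun x hx => ?_, fun i x hx => ?_⟩
  · show pz z (Q (n + 1 + 3)) x = P (n + 3 + k + 1) (x - z)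
    rw [key _ x hx, h (n + 1), show n + 1 + 3 + k = n + 3 + k + 1 by omega]
  · have h0 := h n
    have h1 : Q (n + 3 + 1) = P (n + 3 + k + 1) := by
      have := h (n + 1)
      rw [show n + 1 + 3 = n + 3 + 1 by omega, show n + 3 + 1 + k = n + 3 + k + 1 by omega] at this
      exact this
    have h2 : Q (n + 3 + 2) = P (n + 3 + k + 2) := by
      have := h (n + 2)
      rw [show n + 2 + 3 = n + 3 + 2 by omega, show n + 3 + 2 + k = n + 3 + k + 2 by omega] at this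
      exact this
    have hG := G3_congr h0 h1 h2
    fin_cases i
    · show pz z (GA Q (n + 3)) x = GA P (n + 3 + k) (x - z)
      rw [key _ x hx]
      have : GA Q (n + 3) = GA P (n + 3 + k) := congrFun hG 0
      rw [this]
    · show pz z (GB Q (n + 3)) x = GB P (n + 3 + k) (x - z)
      rw [key _ x hx]
      have : GB Q (n + 3) = GB P (n + 3 + k) := congrFun hG 1
      rw [this]

/-- The master data. -/
structure MstE (α q X : ℝ) : Prop where
  pre : Pre α q (X ^ kq q) X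
  s1 : 17 / 4 / (X ^ kq q) ^ 2 ≤ (2 : ℝ) ^ (-(q ^ 2))
  R2 : (2 : ℝ) ^ (q ^ 3) ≤ X ^ 2

theorem exists_mstE {α q : ℝ} (hα : 0 < α) (hq : 1 < q) (hαq : α * q < 5) :
    ∃ X : ℝ, MstE α q X := by
  obtain ⟨X0, hX0⟩ := (cnd_eventually (α := α) (γ := q) hα hαq).exists_forall_of_atTop
  have hκ := kq_pos hq
  have E1 : ∀ᶠ x : ℝ in atTop, 17 / 4 / (2 : ℝ) ^ (-(q ^ 2)) ≤ (x ^ kq q) ^ 2 :=
    ((tendsto_pow_atTop two_ne_zero).comp (tendsto_rpow_atTop hκ)).eventually_ge_atTop _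
  have E2 : ∀ᶠ x : ℝ in atTop, (2 : ℝ) ^ (q ^ 3) ≤ x ^ 2 :=
    (tendsto_pow_atTop two_ne_zero).eventually_ge_atTop _
  obtain ⟨X, ⟨e1, e2⟩, e3⟩ := ((E1.and E2).and (eventually_ge_atTop (max X0 100))).exists
  have h1 : X0 ≤ X := (le_max_left _ _).trans e3
  have h2 : 100 ≤ X := (le_max_right _ _).trans e3
  have h3 : 1 ≤ X ^ kq q := Real.one_le_rpow (by linarith) hκ.le
  refine ⟨X, ⟨hα, hq, h3, h2, fun x hx => hX0 x (h1.trans hx)⟩, ?_, e2⟩
  have h4 : (0 : ℝ) < 2 ^ (-(q ^ 2)) := by positivity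
  rw [div_le_iff₀ h4] at e1
  rw [div_le_iff₀ (by positivity)]
  linarith

theorem nhds0_of_aw2' {g : V → V} (hg : Aw2 g) : ∀ᶠ x in 𝓝 (0 : V), g x = 0 := by
  obtain ⟨b, hb, hz⟩ := hg
  have h1 : ∀ᶠ x : V in 𝓝 0, x 2 < b :=
    (continuous_apply (2 : Fin 3)).continuousAt.eventually (gt_mem_nhds hb)
  filter_upwards [h1] with y hy
  exact hz y hy

section mst

variable {α q X : ℝ} (M : MstE α q X)

include M

theorem MstE.s1k (k : ℕ) : 17 / 4 / (rh X q k ^ kq q) ^ 2 ≤ (2 : ℝ) ^ (-(q ^ 2)) := by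
  refine le_trans ?_ M.s1
  have hX : 0 < X := by linarith [M.pre.hR]
  have h1 : X ^ kq q ≤ rh X q k ^ kq q :=
    Real.rpow_le_rpow hX.le (M.pre.rh_le k) (kq_pos M.pre.hγ).le
  have h2 : 0 < X ^ kq q := Real.rpow_pos_of_pos hX _
  apply div_le_div_of_nonneg_left (by norm_num) (by positivity)
  exact pow_le_pow_left₀ h2.le h1 2

theorem MstE.R2k (k : ℕ) : (2 : ℝ) ^ (q ^ 3) ≤ rh X q k ^ 2 := by
  refine M.R2.trans ?_
  have hX : 0 < X := by linarith [M.pre.hR]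
  exact pow_le_pow_left₀ hX.le (M.pre.rh_le k) 2

theorem MstE.sbP {n k : ℕ} (hk : n ≤ k) : Sb ((2 : ℝ) ^ (-(q ^ n))) (M.pre.sc.P k) :=
  M.pre.sb M.s1 M.R2 hk

theorem MstE.uf : UFE q (fun m => M.pre.sc.P (m + 1)) (G2' M.pre.sc.P) := by
  have hch := M.pre.sc.chn
  refine ⟨fun m => ⟨(hch.cf _).sm, (hch.cf _).cs, hch.dv _, hch.N0 m⟩, fun m i => ?_,
    fun m x hx => ?_, fun m i x hx => ?_⟩
  · fin_cases i
    · exact ⟨(hch.GA_CF m).sm, (hch.GA_CF m).cs, nhds0_of_aw2' (hch.aw_A m)⟩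
    · exact ⟨(hch.GB_CF m).sm, (hch.GB_CF m).cs, nhds0_of_aw2' (hch.aw_B m)⟩
  · exact M.sbP (by omega : m ≤ m + 1) x hx
  · have : Sb ((2 : ℝ) ^ (-(q ^ m))) (G2' M.pre.sc.P m i) := by
      fin_cases i
      · exact sb_A (M.sbP le_rfl) (M.sbP (by omega)) (M.sbP (by omega))
      · exact sb_B (M.sbP (by omega)) (M.sbP (by omega))
    exact this x hx

theorem MstE.tend : Tendsto (fun k => rh X q (k + 1)) atTop atTop :=
  (tendsto_add_atTop_iff_nat 1).2 (rh_tend (by linarith [M.pre.hR]) M.pre.hγ)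

end mst

/-- Parameters for the Euler equations. -/
theorem exists_alphaU {δ q β : ℝ} (hδ : 0 < δ) (hq : 1 < q) (hβ : β < 1) : ∃ α η : ℝ, 0 < α ∧
    α * q < 5 ∧ 0 < η ∧ η ≤ 2 * 0 - q * (α * q - 2) ∧ η ≤ 2 * δ - q * (α * q) ∧
    α < kq q / 2 * (1 - β) ∧ α < 5 * (kq q / 2) := by
  obtain ⟨α, η, h1, h2, h3, h4, h5, h6⟩ := exists_alpha hδ hq
  have hκ := kq_pos hq
  have hb : 0 < kq q / 4 * (1 - β) := mul_pos (by linarith) (by linarith)
  have hb2 : 0 < kq q / 4 := by linarith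
  set α' := min α (min (kq q / 4 * (1 - β)) (kq q / 4)) with hα'
  have a1 : α' ≤ α := min_le_left _ _
  have a2 : α' ≤ kq q / 4 * (1 - β) := (min_le_right _ _).trans (min_le_left _ _)
  have a3 : α' ≤ kq q / 4 := (min_le_right _ _).trans (min_le_right _ _)
  have a4 : 0 < α' := lt_min h1 (lt_min hb hb2)
  have a5 : q * (α' * q) ≤ q * (α * q) := by
    apply mul_le_mul_of_nonneg_left _ (by linarith)
    exact mul_le_mul_of_nonneg_right a1 (by linarith)
  refine ⟨α', η, a4, ?_, h4, ?_, ?_, ?_, ?_⟩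
  · have : α' * q ≤ α * q := mul_le_mul_of_nonneg_right a1 (by linarith)
    linarith
  · nlinarith
  · linarith
  · have : kq q / 4 * (1 - β) < kq q / 2 * (1 - β) := by nlinarith
    linarith
  · linarith

section

variable {V0 T0 φ : V → V} {l R1 : ℝ}

theorem Src.cKE_pos (S : Src V0 T0 φ l R1) (c : Sc) :
    0 < 2 * (ip T0 T0 + 1 + Nup) / -tri T0 V0 T0 := by
  have hb0 := S.b0
  have hβ := β0_pos
  have hNup : 0 < Nup := hβ.trans_le ((c.nn_low 0).trans (c.nn_up 0))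
  have := ip_nonneg T0
  positivity

/-- The chain for the perturbed fields. -/
theorem Src.echainV (S : Src V0 T0 φ l R1) {α q X : ℝ} (M : MstE α q X) {k : ℕ} {w δ η ε₀ : ℝ}
    (hR : ROv V0 T0 φ l α (rh X q (k + 1)) w) (hδ : 0 < δ)
    (h16 : 16 ≤ rh X q (k + 1) ^ η)
    (hη1 : η ≤ 2 * 0 - q * (α * q - 2)) (hη2 : η ≤ 2 * δ - q * (α * q))
    (hε : 17 / 4 / (rh X q (k + 1) ^ kq q) ^ 2 ≤ ε₀)
    {U : V → V} {lU s b : ℝ} (P : Prt U V0 T0 φ l R1 lU s b)
    (hws : rh X q (k + 1) ^ kq q = w * s)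
    (hT : ∀ x, T0 (s ^ 2 • x) ≠ 0 ∨ φ (s ^ 2 • x) ≠ 0 →
        x ∈ tsupport (P0 U V0 b s) ∨ ‖x‖ ≤ ε₀) :
    ∃ Q, ECh δ q ε₀ (9 * rh X q (k + 1) ^ α * (2 * (ip T0 T0 + 1 + Nup) / -tri T0 V0 T0)
        / (b * s ^ 5)) (P0 U V0 b s) Q ∧ TlQ M.pre.sc.P k Q := by
  set R := rh X q (k + 1) with hRd
  have hβ := β0_pos
  have hb0 := S.b0
  have hRb := hR.big
  set hp := preU M.pre (k + 1) with hpd
  have hKp := S.cKE_pos hp.sc
  set K := 2 * (ip T0 T0 + 1 + Nup) / -tri T0 V0 T0 with hK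
  have hRα : 0 < R ^ α := by linarith [hR.bigα]
  have hR1 : 1 ≤ R := by linarith
  obtain ⟨RU, hRU⟩ : ∃ R, ∀ x, U x ≠ 0 → ‖x‖ ≤ R := by
    obtain ⟨R, hR⟩ := P.cu.cs.isCompact.isBounded.exists_norm_le
    exact ⟨R, fun x hx => hR x (subset_tsupport U hx)⟩
  obtain ⟨hL, hκ, -⟩ := P.lnkV hR hp hws hRU
  have hs := P.s0
  have hb := P.b0
  have he := hL.ech hδ (ε₀ := ε₀) (fun x hx => hT x (by
      have h3 : Tc T0 φ (Real.exp (-(3 * R ^ α))) (s ^ 2 • x) ≠ 0 := by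
        intro h4
        apply hx
        show s ^ 3 • Tc T0 φ (Real.exp (-(3 * R ^ α))) (s ^ 2 • x) = 0
        rw [h4, smul_zero]
      by_cases h5 : T0 (s ^ 2 • x) = 0
      · right
        intro h6
        apply h3
        show T0 (s ^ 2 • x) + _ • φ (s ^ 2 • x) = 0
        rw [h5, h6, smul_zero, add_zero]
      · exact Or.inl h5)) hε (M.s1k (k + 1)) (M.R2k (k + 1))
    (h16.trans (Real.rpow_le_rpow_of_exponent_le hR1 hη1))
    (h16.trans (Real.rpow_le_rpow_of_exponent_le hR1 hη2))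
  refine ⟨_, he.mono ?_, fun n => ?_⟩
  · rw [mul_div_assoc]
    exact mul_le_mul_of_nonneg_left hκ (by positivity)
  · have := QU M.pre (k + 1) (P0 U V0 b s) (dil s (Tc T0 φ (Real.exp (-(3 * R ^ α))))) n
    rw [show n + 2 + (k + 1) = n + 3 + k by omega] at this
    exact this

end

end Pool.Agent.Run7.h407.G.X
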