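import Mathlib
import Pool.Agent.Run7.h407.DU.BlowE

/-!
The main theorems with universal constraint fields, Euler equations.
-/

namespace Pool.Agent.Run7.h407.G.X

open Set Filter Topology MeasureTheory
open scoped ContDiff

theorem zero_of_ip' {U : V → V} (hU : CF U) (h : ip U U ≤ 0) (x : V) : U x = 0 := by
  funext i
  apply Carl.eq_zero_of_sq (hU.smc i) (hU.csc i) _ x
  refine le_trans ?_ h
  unfold ip
  apply integral_mono
  · have := integrable_of_cs (hU.smc i).continuous (hU.csc i) (hU.smc i).continuous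
    refine this.congr (Eventually.of_forall fun y => ?_)
    show U y i * U y i = U y i ^ 2
    ring
  · exact ip_int hU.sm.continuous hU
  · intro y
    show U y i ^ 2 ≤ ∑ i, U y i * U y i
    have h1 : U y i * U y i ≤ ∑ i, U y i * U y i :=
      Finset.single_le_sum (f := fun i => U y i * U y i)
        (fun i _ => mul_self_nonneg _) (Finset.mem_univ i)
    nlinarith

section

variable {U V0 T0 φ : V → V} {l R1 δ q α η X ε₀ : ℝ}

/-- Every datum which is not a steady flow. -/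
theorem eAV (M : MstE α q X) (hδ : 0 < δ) (hη : 0 < η) (hη1 : η ≤ 2 * 0 - q * (α * q - 2))
    (hη2 : η ≤ 2 * δ - q * (α * q)) (hα : α < 5 * kq q)
    (hU : CF U) (hd : ∀ x, dvg U x = 0) (ha : Aw0 U) (hns : ∃ i x, om i (adv U U) x ≠ 0)
    (hε : 0 < ε₀) :
    ∃ k₀ : ℕ, ∀ k ≥ k₀, ∃ (A₀ : ℝ) (Q : ℕ → V → V), 0 < A₀ ∧ ECh δ q ε₀ A₀ U Q ∧
      TlQ M.pre.sc.P k Q := by
  have hn := ip_pos_of_om' hU hns
  have hq := M.pre.hγ
  have hκ := kq_pos hq
  obtain ⟨φ, f1, f2, f3, f4, f5, f6⟩ := exists_phi2 hU hd hn hns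
  obtain ⟨T0, l, R1, S, hs⟩ := exists_src2 hU hd ha hn f1 f2 f3 f4 f5 f6
  have E1 : ∀ᶠ R : ℝ in atTop, 16 ≤ R ^ η := (tendsto_rpow_atTop hη).eventually_ge_atTop _
  have E2 : ∀ᶠ x : ℝ in atTop, 17 / 4 / ε₀ ≤ (x ^ kq q) ^ 2 :=
    ((tendsto_pow_atTop two_ne_zero).comp (tendsto_rpow_atTop hκ)).eventually_ge_atTop _
  obtain ⟨k₀, hk₀⟩ := (M.tend.eventually (((S.evV M.pre.hα hα).and E1).and
    E2)).exists_forall_of_atTop
  refine ⟨k₀, fun k hk => ?_⟩
  obtain ⟨⟨hR, h16⟩, h17⟩ := hk₀ k hk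
  have hRb := hR.big
  have hR1 : 0 < R1 := S.l0.trans_le S.lR
  have e0 : P0 (fun _ => 0) U 1 1 = U := by
    funext x
    show (0 : V) + (1 : ℝ) • dil 1 U x = _
    rw [dil_one, one_smul, zero_add]
  have hP : Prt (fun _ => 0) U T0 φ l R1 (R1 + 1) 1 1 :=
    { S := S
      cu := ⟨contDiff_const, HasCompactSupport.zero⟩
      du := fun x => Finset.sum_eq_zero fun i _ => pd_const _ _ _
      zu := fun x _ => rfl
      s1 := le_rfl
      sR := by linarith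
      b0 := one_pos
      hD := by
        have h1 : Dir (fun _ : V => (0 : V)) (fun _ => 0) = 0 := by
          apply Dir_zero_of
          intro x
          exact Or.inl (Eventually.of_forall fun _ => rfl)
        have h2 : ip (fun _ : V => (0 : V)) (fun _ => 0) = 0 := by
          apply ip_zero_of'
          intro x
          exact Or.inl rfl
        rw [h1, h2]
        simp }
  have hR0 : 0 < rh X q (k + 1) := by linarith
  have hw0 : 0 < rh X q (k + 1) ^ kq q := Real.rpow_pos_of_pos hR0 _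
  have hRα : 0 < rh X q (k + 1) ^ α := Real.rpow_pos_of_pos hR0 _
  obtain ⟨Q, hQ, hT⟩ := S.echainV M hR hδ h16 hη1 hη2 (ε₀ := ε₀) (by
      rw [div_le_iff₀ hε] at h17
      rw [div_le_iff₀ (by positivity)]
      linarith) hP (mul_one _).symm (fun x hx => by
    rw [e0]
    rw [one_pow, one_smul] at hx
    exact Or.inl (hx.elim (fun h => hs x h) (fun h => f3 x h)))
  rw [e0] at hQ
  have hK := S.cKE_pos M.pre.sc
  refine ⟨_, Q, ?_, hQ, hT⟩
  rw [one_pow, mul_one, div_one]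
  positivity

/-- Small localised perturbations of every datum. -/
theorem eBV (S : Src V0 T0 φ l R1) (hDV : 0 < Dir V0 V0)
    (M : MstE α q X) (hδ : 0 < δ) (hη : 0 < η) (hη1 : η ≤ 2 * 0 - q * (α * q - 2))
    (hη2 : η ≤ 2 * δ - q * (α * q)) {β ε : ℝ} (hα : α < 5 * (kq q / 2))
    (hαβ : α < kq q / 2 * (1 - β))
    (hU : CF U) (hd : ∀ x, dvg U x = 0) (ha : Aw0 U)
    (hε₀ : 0 < ε₀) (hε : 0 < ε) (hβ0 : 0 < β) (hβ1 : β < 1) :
    ∃ k₀ : ℕ, ∀ k ≥ k₀, ∃ F : V → V, CF F ∧ (∀ x, dvg F x = 0) ∧ (∀ x, F x ≠ 0 → ‖x‖ ≤ ε) ∧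
      (∀ x, ‖F x‖ ≤ ε) ∧ (∀ x y, ‖F x - F y‖ ≤ ε * ‖x - y‖ ^ β) ∧
      ∃ Q, ECh δ q ε₀ ε (fun x => U x + F x) Q ∧ TlQ M.pre.sc.P k Q := by
  have hq := M.pre.hγ
  have hκ := kq_pos hq
  have hκ2 : 0 < kq q / 2 := by linarith
  obtain ⟨C, hC, hH⟩ := dil_holder S.cu hβ0 hβ1
  obtain ⟨lU, hlU, hz⟩ := ha
  have hR1 : 0 < R1 := S.l0.trans_le S.lR
  have hK := S.cKE_pos M.pre.sc
  set K := 2 * (ip T0 T0 + 1 + Nup) / -tri T0 V0 T0 with hKd
  set θ : ℝ := 4 + β with hθ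
  have ts : Tendsto (fun x : ℝ => x ^ (kq q / 2)) atTop atTop := tendsto_rpow_atTop hκ2
  have p2 : Tendsto (fun s : ℝ => s ^ 2) atTop atTop := tendsto_pow_atTop two_ne_zero
  have p4 : Tendsto (fun s : ℝ => s ^ 4) atTop atTop := tendsto_pow_atTop four_ne_zero
  have E1 : ∀ᶠ s : ℝ in atTop, R1 / lU < s ^ 2 := p2.eventually_gt_atTop _
  have E2 : ∀ᶠ s : ℝ in atTop, R1 / ε ≤ s ^ 2 := p2.eventually_ge_atTop _
  have E2' : ∀ᶠ s : ℝ in atTop, R1 / ε₀ ≤ s ^ 2 := p2.eventually_ge_atTop _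
  have E3 : ∀ᶠ s : ℝ in atTop, Dir U U * ip V0 V0 / (Dir V0 V0 * ip U U) ≤ s ^ 4 :=
    p4.eventually_ge_atTop _
  have E6 : ∀ᶠ s : ℝ in atTop, C * s ^ (-(θ - (3 + 2 * β))) ≤ ε := by
    have h1 : Tendsto (fun s : ℝ => C * s ^ (-(θ - (3 + 2 * β)))) atTop (𝓝 (C * 0)) :=
      (tendsto_rpow_neg_atTop (by rw [hθ]; linarith)).const_mul _
    rw [mul_zero] at h1
    exact h1.eventually_le_const hε
  have F1 : ∀ᶠ R : ℝ in atTop, 16 ≤ R ^ η := (tendsto_rpow_atTop hη).eventually_ge_atTop _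
  have F2 : ∀ᶠ x : ℝ in atTop, 17 / 4 / ε₀ ≤ (x ^ kq q) ^ 2 :=
    ((tendsto_pow_atTop two_ne_zero).comp (tendsto_rpow_atTop hκ)).eventually_ge_atTop _
  have F3 : ∀ᶠ R : ℝ in atTop, 9 * K / ε ≤ R ^ (kq q / 2 * (1 - β) - α) :=
    (tendsto_rpow_atTop (by linarith)).eventually_ge_atTop _
  obtain ⟨k₀, hk₀⟩ := (M.tend.eventually (((((((((S.evV M.pre.hα hα).and
    (ts.eventually E1)).and (ts.eventually E2)).and (ts.eventually E2')).and
    (ts.eventually E3)).and (ts.eventually E6)).and F1).and F2).and (F3.and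
    (ts.eventually (eventually_ge_atTop 1))))).exists_forall_of_atTop
  refine ⟨k₀, fun k hk => ?_⟩
  obtain ⟨⟨⟨⟨⟨⟨⟨⟨hR, e1⟩, e2⟩, e2'⟩, e3⟩, e6⟩, f1⟩, f2⟩, f3, hs1⟩ := hk₀ k hk
  have hRb := hR.big
  set R := rh X q (k + 1) with hRd
  have hR0 : 0 < R := by linarith
  have hw0 : 0 < R ^ kq q := Real.rpow_pos_of_pos hR0 _
  set s := R ^ (kq q / 2) with hsd
  have hs : 0 < s := Real.rpow_pos_of_pos hR0 _
  have hb : 0 < s ^ (-θ) := Real.rpow_pos_of_pos hs _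
  have hws : R ^ kq q = R ^ (kq q / 2) * s := by
    rw [hsd, ← Real.rpow_add hR0]
    congr 1
    ring
  rw [div_lt_iff₀ hlU] at e1
  rw [div_le_iff₀ hε] at e2 f3
  rw [div_le_iff₀ hε₀] at e2' f2
  have hP : Prt U V0 T0 φ l R1 lU s (s ^ (-θ)) :=
    { S := S
      cu := hU
      du := hd
      zu := hz
      s1 := hs1
      sR := e1
      b0 := hb
      hD := by
        rcases (ip_nonneg U).lt_or_eq with h | h
        · rw [div_le_iff₀ (by positivity)] at e3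
          linarith
        · have h1 : Dir U U = 0 := by
            apply Dir_zero_of
            intro x
            exact Or.inl (Eventually.of_forall fun y => zero_of_ip' hU h.symm.le y)
          rw [h1, ← h]
          simp }
  have hsm : ∀ {y : V}, T0 y ≠ 0 ∨ φ y ≠ 0 → ‖y‖ ≤ R1 := fun hy =>
    hy.elim (fun h => (S.st _ h).2) (fun h => (S.sf _ h).2)
  obtain ⟨Q, hQ, hT⟩ := S.echainV M hR hδ f1 hη1 hη2 (ε₀ := ε₀) (by
      rw [div_le_iff₀ (by positivity)]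
      linarith) hP hws (fun x hx => by
    right
    have h4 := hsm hx
    rw [norm_smul, Real.norm_eq_abs, abs_of_pos (by positivity)] at h4
    have h5 : 0 < s ^ 2 := by positivity
    nlinarith)
  have hbs : C * (s ^ (-θ) * s ^ (3 + 2 * β)) ≤ ε := by
    rw [← Real.rpow_add hs]
    have : -θ + (3 + 2 * β) = -(θ - (3 + 2 * β)) := by ring
    rw [this]
    exact e6
  refine ⟨fun x => s ^ (-θ) • dil s V0 x, hP.cV.smul _, fun x => ?_, fun x hx => ?_,
    fun x => ((hH s hs1 _ hb).1 x).trans hbs, fun x y => ((hH s hs1 _ hb).2 x y).trans ?_,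
    Q, hQ.mono ?_, hT⟩
  · rw [dvg_smul _ hP.cV, dvg_dil S.cu.smc, S.du, mul_zero, mul_zero]
  · have h2 : V0 (s ^ 2 • x) ≠ 0 := by
      intro h3
      apply hx
      show s ^ (-θ) • (s ^ 3 • V0 (s ^ 2 • x)) = 0
      rw [h3, smul_zero, smul_zero]
    have h4 := (S.su _ h2).2
    rw [norm_smul, Real.norm_eq_abs, abs_of_pos (by positivity)] at h4
    have h5 : 0 < s ^ 2 := by positivity
    nlinarith
  · exact mul_le_mul_of_nonneg_right hbs (Real.rpow_nonneg (norm_nonneg _) _)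
  · have h2 : s ^ (-θ) * s ^ 5 = s ^ (1 - β) := by
      have h5 : s ^ (5 : ℕ) = s ^ (5 : ℝ) := by norm_cast
      rw [h5, ← Real.rpow_add hs]
      congr 1
      rw [hθ]
      ring
    have h3 : s ^ (1 - β) = R ^ (kq q / 2 * (1 - β) - α) * R ^ α := by
      rw [hsd, ← Real.rpow_mul hR0.le, ← Real.rpow_add hR0]
      congr 1
      ring
    have hRα : 0 < R ^ α := Real.rpow_pos_of_pos hR0 _
    rw [h2, h3, ← hKd, ← hRd, div_le_iff₀ (by positivity)]
    have := mul_le_mul_of_nonneg_right f3 hRα.le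
    linarith

end

section torus

variable {U : V → V} {r δ q α η X : ℝ} {z : V}

/-- Every datum supported inside the cube which is not a steady flow. -/
theorem mainTAV (M : MstE α q X) (hδ : 0 < δ) (hη : 0 < η) (hη1 : η ≤ 2 * 0 - q * (α * q - 2))
    (hη2 : η ≤ 2 * δ - q * (α * q)) (hα : α < 5 * kq q)
    (hU : ContDiff ℝ ∞ U) (hp : Per U) (hd : ∀ x, dvg U x = 0)
    (hr : r < Real.pi) (hs : ∀ x ∈ cube, U x ≠ 0 → ‖x‖ ≤ r) (hz : ‖z‖ < Real.pi)
    (hz0 : ∀ᶠ x in 𝓝 z, U x = 0) (hns : ∃ i x, om i (adv U U) x ≠ 0) :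
    ∃ k₀ : ℕ, ∀ k ≥ k₀, ∃ (p : ℕ → V → V) (g : ℕ → Fin 2 → V → V), FamT q z U p g ∧
      TailE (fun m => M.pre.sc.P (m + 1)) (G2' M.pre.sc.P) k z p g ∧
      ∃ A₀ > 0, ∀ a > 0, BloT δ z p g (fun x => a • U x) (A₀ / a) := by
  obtain ⟨hc, ho⟩ := exists_cut hU hp hd hr hs hz hz0
  set U' := Tl (-z) (cube.indicator U) with hU'
  have hns' : ∃ i x, om i (adv U' U') x ≠ 0 := by
    obtain ⟨i, x, hx⟩ := hns
    exact ⟨i, red x - z, by rw [← ho]; exact hx⟩
  have hε : 0 < (Real.pi - ‖z‖) / 2 := by linarith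
  obtain ⟨k₀, hk₀⟩ := eAV M hδ hη hη1 hη2 hα hc.cf hc.dv hc.aw hns' hε
  refine ⟨k₀, fun k hk => ?_⟩
  obtain ⟨A₀, Q, hA, H, hT⟩ := hk₀ k hk
  obtain ⟨h1, h2⟩ := H.torE (r := max r ((‖z‖ + Real.pi) / 2)) (z := z)
    (max_lt hr (by linarith)) (fun x hx => (hc.ts x hx).trans (le_max_left _ _))
    (le_trans (by linarith) (le_max_right _ _))
  rw [hc.eq] at h1 h2
  exact ⟨_, _, h1, hT.tail z, A₀, hA, h2⟩

/-- Small localised perturbations of every datum supported inside the cube. -/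
theorem mainTBV (M : MstE α q X) (hδ : 0 < δ) (hη : 0 < η) (hη1 : η ≤ 2 * 0 - q * (α * q - 2))
    (hη2 : η ≤ 2 * δ - q * (α * q)) {β ε : ℝ} (hα : α < 5 * (kq q / 2))
    (hαβ : α < kq q / 2 * (1 - β))
    (hU : ContDiff ℝ ∞ U) (hp : Per U) (hd : ∀ x, dvg U x = 0)
    (hr : r < Real.pi) (hs : ∀ x ∈ cube, U x ≠ 0 → ‖x‖ ≤ r) (hz : ‖z‖ < Real.pi)
    (hz0 : ∀ᶠ x in 𝓝 z, U x = 0) (hβ0 : 0 < β) (hβ1 : β < 1) (hε : 0 < ε) :
    ∃ k₀ : ℕ, ∀ k ≥ k₀, ∃ F : V → V, ContDiff ℝ ∞ F ∧ Per F ∧ (∀ x, dvg F x = 0) ∧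
      (∀ x ∈ cube, F x ≠ 0 → ‖x - z‖ ≤ ε) ∧ (∀ x, ‖F x‖ ≤ ε) ∧
      (∀ x y, ‖F x - F y‖ ≤ ε * ‖x - y‖ ^ β) ∧
      ∃ (p : ℕ → V → V) (g : ℕ → Fin 2 → V → V), FamT q z (fun x => U x + F x) p g ∧
        TailE (fun m => M.pre.sc.P (m + 1)) (G2' M.pre.sc.P) k z p g ∧
        ∀ a > 0, BloT δ z p g (fun x => a • (U x + F x)) (ε / a) := by
  obtain ⟨hc, -⟩ := exists_cut hU hp hd hr hs hz hz0
  set U' := Tl (-z) (cube.indicator U) with hU'
  obtain ⟨V0, T0, φ, l, R1, S, hDV⟩ := exists_src0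
  have hε₀ : 0 < (Real.pi - ‖z‖) / 2 := by linarith
  have hε' : 0 < min (ε / 2) ((Real.pi - ‖z‖) / 2) := lt_min (by linarith) hε₀
  obtain ⟨k₀, hk₀⟩ := eBV S hDV M hδ hη hη1 hη2 hα hαβ hc.cf hc.dv hc.aw hε₀ hε' hβ0 hβ1
  refine ⟨k₀, fun k hk => ?_⟩
  obtain ⟨F, f1, f2, f3, f4, f5, Q, H, hT⟩ := hk₀ k hk
  set ε' := min (ε / 2) ((Real.pi - ‖z‖) / 2) with hε'd
  have hee : ε' ≤ ε / 2 := min_le_left _ _
  have hr' : max r ((‖z‖ + Real.pi) / 2) < Real.pi := max_lt hr (by linarith)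
  have hsF : Sb (max r ((‖z‖ + Real.pi) / 2)) (Tl z F) := by
    intro x hx
    have h1 := (f3 (x - z) hx).trans (min_le_right _ _)
    have h2 : ‖x‖ ≤ ‖x - z‖ + ‖z‖ := by
      have := norm_add_le (x - z) z
      rwa [sub_add_cancel] at this
    exact le_trans (by linarith) (le_max_right _ _)
  have hts : ∀ x ∈ tsupport (fun x => U' x + F x), ‖x + z‖ ≤ max r ((‖z‖ + Real.pi) / 2) := by
    intro x hx
    have hcl : tsupport (fun x => U' x + F x) ⊆ {y | ‖y + z‖ ≤ max r ((‖z‖ + Real.pi) / 2)} := by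
      apply closure_minimal
      · intro y hy
        by_cases hF : F y = 0
        · have h1 : U' y ≠ 0 := by
            intro h2
            apply hy
            show U' y + F y = 0
            rw [h2, hF, add_zero]
          exact (hc.ts y (subset_tsupport _ h1)).trans (le_max_left _ _)
        · have h1 := (f3 y hF).trans (min_le_right _ _)
          have h2 := norm_add_le y z
          exact (show ‖y + z‖ ≤ (‖z‖ + Real.pi) / 2 by linarith).trans (le_max_right _ _)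
      · exact isClosed_le ((continuous_id.add continuous_const).norm) continuous_const
    exact hcl hx
  obtain ⟨h1, h2⟩ := H.torE (r := max r ((‖z‖ + Real.pi) / 2)) (z := z) hr' hts
    (le_trans (by linarith) (le_max_right _ _))
  have e1 : pz z (fun x => U' x + F x) = fun x => U x + pz z F x := by
    funext x
    show U' (red x - z) + F (red x - z) = U x + F (red x - z)
    have := congrFun hc.eq x
    rw [← this]
    rfl
  rw [e1] at h1 h2
  refine ⟨pz z F, pex_smoothR hr' (sm_Tl z f1.sm) hsF, pex_per _, fun x => ?_, fun x hx hne => ?_,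
    fun x => (f4 _).trans (by linarith), fun x y => ?_, _, _, h1, hT.tail z, fun a ha => ?_⟩
  · rw [dvg_pz hr' f1 hsF, f2]
  · unfold pz at hne
    rw [pex_cube _ hx] at hne
    exact (f3 (x - z) hne).trans (by linarith)
  · have h3 := pex_holder hr' hsF (C := ε') (β := β) hε'.le (fun x y => by
      have := f5 (x - z) (y - z)
      rwa [sub_sub_sub_cancel_right] at this) x y
    refine h3.trans ?_
    apply mul_le_mul_of_nonneg_right _ (Real.rpow_nonneg (norm_nonneg _) _)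
    linarith
  · obtain ⟨T, t1, t2, t3⟩ := h2 a ha
    refine ⟨T, t1, t2.trans ?_, t3⟩
    apply div_le_div_of_nonneg_right _ ha.le
    linarith

end torus

end Pool.Agent.Run7.h407.G.X
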